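import Mathlib

set_option autoImplicit false

namespace Pool.Agent.H241R2.IR

/-- A set `S` of vertices of `G` is irredundant if every `v ∈ S` has a private neighbour: a vertex
`w` of the closed neighbourhood of `v` which lies in the closed neighbourhood of no other vertex
of `S`. -/
def IsIrredundant {V : Type} (G : SimpleGraph V) (S : Finset V) : Prop :=
  ∀ v ∈ S, ∃ w, (w = v ∨ G.Adj v w) ∧ ∀ u ∈ S, u ≠ v → ¬ (w = u ∨ G.Adj u w)

/-- The upper irredundance number: the largest size of an irredundant set. -/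
noncomputable def upperIrredundance {V : Type} (G : SimpleGraph V) : ℕ :=
  sSup {k | ∃ S : Finset V, S.card = k ∧ IsIrredundant G S}

/-- The queens graph of the `n × n` board: two distinct squares are adjacent if they share a row,
a column, or a diagonal of either direction. -/
def queensGraph (n : ℕ) : SimpleGraph (Fin n × Fin n) where
  Adj p q := p ≠ q ∧ (p.1 = q.1 ∨ p.2 = q.2 ∨
    (p.1.val : ℤ) + (p.2.val : ℤ) = (q.1.val : ℤ) + (q.2.val : ℤ) ∨
    (p.1.val : ℤ) - (p.2.val : ℤ) = (q.1.val : ℤ) - (q.2.val : ℤ))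
  symm := ⟨fun p q h => ⟨h.1.symm, by
    rcases h.2 with h | h | h | h
    · exact Or.inl h.symm
    · exact Or.inr (Or.inl h.symm)
    · exact Or.inr (Or.inr (Or.inl h.symm))
    · exact Or.inr (Or.inr (Or.inr h.symm))⟩⟩
  loopless := ⟨fun p h => h.1 rfl⟩

/-- the value of a cell in the four families of lines -/
def lv {n : ℕ} (k : Fin 4) (p : Fin n × Fin n) : ℤ :=
  match k with
  | 0 => p.1.val
  | 1 => p.2.val
  | 2 => (p.1.val : ℤ) + (p.2.val : ℤ)
  | 3 => (p.1.val : ℤ) - (p.2.val : ℤ)

theorem adj_iff {n : ℕ} (p q : Fin n × Fin n) :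
    (queensGraph n).Adj p q ↔ p ≠ q ∧ ∃ k, lv k p = lv k q := by
  constructor
  · rintro ⟨h, h1 | h1 | h1 | h1⟩
    · exact ⟨h, 0, by simp [lv, h1]⟩
    · exact ⟨h, 1, by simp [lv, h1]⟩
    · exact ⟨h, 2, h1⟩
    · exact ⟨h, 3, h1⟩
  · rintro ⟨h, k, hk⟩
    refine ⟨h, ?_⟩
    fin_cases k
    · left
      simp only [lv] at hk
      exact Fin.ext (by exact_mod_cast hk)
    · right; left
      simp only [lv] at hk
      exact Fin.ext (by exact_mod_cast hk)
    · right; right; left; exact hk
    · right; right; right; exact hk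

theorem eq_of_two_lines {n : ℕ} (p q : Fin n × Fin n) (j k : Fin 4) (hjk : j ≠ k)
    (hj : lv j p = lv j q) (hk : lv k p = lv k q) : p = q := by
  have h : (p.1.val : ℤ) = q.1.val ∧ (p.2.val : ℤ) = q.2.val := by
    fin_cases j <;> fin_cases k <;> simp only [lv] at hj hk <;>
      first
      | exact absurd rfl hjk
      | (constructor <;> omega)
  exact Prod.ext (Fin.ext (by exact_mod_cast h.1)) (Fin.ext (by exact_mod_cast h.2))

theorem bddAbove_irr {V : Type} [Fintype V] (G : SimpleGraph V) :
    BddAbove {k | ∃ S : Finset V, S.card = k ∧ IsIrredundant G S} := by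
  refine ⟨Fintype.card V, ?_⟩
  rintro k ⟨S, rfl, -⟩
  exact Finset.card_le_univ S

theorem le_upper {V : Type} [Fintype V] (G : SimpleGraph V) (S : Finset V)
    (h : IsIrredundant G S) : S.card ≤ upperIrredundance G :=
  le_csSup (bddAbove_irr G) ⟨S, rfl, h⟩

theorem exists_upper {V : Type} [Fintype V] (G : SimpleGraph V) :
    ∃ S : Finset V, S.card = upperIrredundance G ∧ IsIrredundant G S := by
  have h := Nat.sSup_mem (s := {k | ∃ S : Finset V, S.card = k ∧ IsIrredundant G S})
    ⟨0, ∅, rfl, by intro v hv; simp at hv⟩ (bddAbove_irr G)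
  exact h

end Pool.Agent.H241R2.IR
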