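import Mathlib
import Pool.Agent.H241R2.IRDefs

set_option autoImplicit false
set_option maxHeartbeats 4000000

namespace Pool.Agent.H241R2.IR

open Finset

/-! ### Decimal representations -/

/-- numbers with digits from `D`, `k` digits -/
def digs (D : Finset ℤ) : ℕ → Finset ℤ
  | 0 => {0}
  | k + 1 => (digs D k ×ˢ D).image fun p => 10 * p.1 + p.2

theorem card_digs (D : Finset ℤ) (k : ℕ) : (digs D k).card ≤ D.card ^ k := by
  induction k with
  | zero => simp [digs]
  | succ k ih =>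
    rw [digs]
    refine Finset.card_image_le.trans ?_
    rw [Finset.card_product, pow_succ]
    exact Nat.mul_le_mul_right _ ih

def DX : Finset ℤ := {0, 1, 3, 4}
def DY : Finset ℤ := {0, 1, 4, 5}
def DZ : Finset ℤ := {0, -1, 3, -4}

theorem digit_rep : ∀ e : Fin 10, ∃ x ∈ DX, ∃ y ∈ DY, 0 ≤ x ∧ 0 ≤ y ∧ x + y = (e.val : ℤ) ∧
    x - y ∈ DZ := by
  decide +kernel

theorem rep (k : ℕ) : ∀ s : ℤ, 0 ≤ s → s < 10 ^ k → ∃ x ∈ digs DX k, ∃ y ∈ digs DY k,
    0 ≤ x ∧ 0 ≤ y ∧ x + y = s ∧ x - y ∈ digs DZ k := by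
  induction k with
  | zero =>
    intro s h0 h1
    have : s = 0 := by simp at h1; omega
    subst this
    exact ⟨0, by simp [digs], 0, by simp [digs], le_refl _, le_refl _, by ring, by simp [digs]⟩
  | succ k ih =>
    intro s h0 h1
    have hs1 : 0 ≤ s / 10 := Int.ediv_nonneg h0 (by norm_num)
    have hs2 : s / 10 < 10 ^ k := by
      rw [pow_succ] at h1
      exact Int.ediv_lt_of_lt_mul (by norm_num) h1
    obtain ⟨x, hx, y, hy, hx0, hy0, hxy, hz⟩ := ih (s / 10) hs1 hs2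
    have he0 : 0 ≤ s % 10 := Int.emod_nonneg _ (by norm_num)
    have he1 : s % 10 < 10 := Int.emod_lt_of_pos _ (by norm_num)
    obtain ⟨x1, hx1, y1, hy1, hx10, hy10, hxy1, hz1⟩ := digit_rep ⟨(s % 10).toNat, by omega⟩
    have hxy1' : x1 + y1 = s % 10 := by
      rw [hxy1]
      simp only
      omega
    refine ⟨10 * x + x1, ?_, 10 * y + y1, ?_, by omega, by omega, by omega, ?_⟩
    · exact Finset.mem_image.2 ⟨(x, x1), Finset.mem_product.2 ⟨hx, hx1⟩, rfl⟩
    · exact Finset.mem_image.2 ⟨(y, y1), Finset.mem_product.2 ⟨hy, hy1⟩, rfl⟩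
    · exact Finset.mem_image.2 ⟨(x - y, x1 - y1), Finset.mem_product.2 ⟨hz, hz1⟩, by ring⟩

/-! ### Adding residues modulo 19 -/

/-- the basic sparse set -/
def TT (k : ℕ) : Finset ℤ := digs DX k ∪ digs DY k ∪ digs DZ k

noncomputable def BB (k : ℕ) : Finset ℤ :=
  (TT k ×ˢ Finset.Icc (-18 : ℤ) 18).image fun p => 19 * p.1 + p.2

theorem card_BB (k : ℕ) : (BB k).card ≤ 111 * 4 ^ k := by
  have h1 : (TT k).card ≤ 3 * 4 ^ k := by
    have a := card_digs DX k
    have b := card_digs DY k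
    have c := card_digs DZ k
    have a' : DX.card = 4 := by decide
    have b' : DY.card = 4 := by decide
    have c' : DZ.card = 4 := by decide
    rw [a'] at a
    rw [b'] at b
    rw [c'] at c
    have d1 := Finset.card_union_le (digs DX k ∪ digs DY k) (digs DZ k)
    have d2 := Finset.card_union_le (digs DX k) (digs DY k)
    unfold TT
    omega
  refine Finset.card_image_le.trans ?_
  rw [Finset.card_product]
  have h2 : (Finset.Icc (-18 : ℤ) 18).card = 37 := by decide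
  rw [h2]
  omega

theorem repB (k : ℕ) (s : ℤ) (h0 : 36 ≤ s) (h1 : s < 10 ^ k) (rx ry : ZMod 19)
    (hr : (s : ZMod 19) = rx + ry) :
    ∃ x y : ℤ, 0 ≤ x ∧ 0 ≤ y ∧ x + y = s ∧ (x : ZMod 19) = rx ∧ (y : ZMod 19) = ry ∧
      x ∈ BB k ∧ y ∈ BB k ∧ x - y ∈ BB k := by
  have hu := ZMod.val_lt rx
  have hv := ZMod.val_lt ry
  have hru : ((rx.val : ℤ) : ZMod 19) = rx := by simp
  have hrv : ((ry.val : ℤ) : ZMod 19) = ry := by simp
  have hd : (19 : ℤ) ∣ s - rx.val - ry.val := by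
    have : ((s - rx.val - ry.val : ℤ) : ZMod 19) = 0 := by
      push_cast at hru hrv ⊢
      rw [hr, hru, hrv]; ring
    exact (ZMod.intCast_zmod_eq_zero_iff_dvd _ 19).1 this
  obtain ⟨m, hm⟩ := hd
  obtain ⟨x, hx, y, hy, hx0, hy0, hxy, hz⟩ := rep k m (by omega) (by omega)
  refine ⟨19 * x + rx.val, 19 * y + ry.val, by omega, by omega, by omega, ?_, ?_, ?_, ?_, ?_⟩
  · push_cast
    have : (19 : ZMod 19) = 0 := by decide
    rw [this]
    simp
  · push_cast
    have : (19 : ZMod 19) = 0 := by decide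
    rw [this]
    simp
  · refine Finset.mem_image.2 ⟨(x, rx.val), Finset.mem_product.2 ⟨?_, ?_⟩, rfl⟩
    · simp only [TT, Finset.mem_union]; exact Or.inl (Or.inl hx)
    · rw [Finset.mem_Icc]; omega
  · refine Finset.mem_image.2 ⟨(y, ry.val), Finset.mem_product.2 ⟨?_, ?_⟩, rfl⟩
    · simp only [TT, Finset.mem_union]; exact Or.inl (Or.inr hy)
    · rw [Finset.mem_Icc]; omega
  · refine Finset.mem_image.2 ⟨(x - y, (rx.val : ℤ) - ry.val), Finset.mem_product.2 ⟨?_, ?_⟩, ?_⟩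
    · simp only [TT, Finset.mem_union]; exact Or.inr hz
    · rw [Finset.mem_Icc]; omega
    · simp only; ring

/-! ### The structured set of line values -/

/-- anchors -/
def anch (M c : ℤ) : Finset ℤ := {0, M, c, -c, M + c, M - c, c - M}

noncomputable def St (k : ℕ) (M c : ℤ) : Finset ℤ :=
  ((anch M c ×ˢ BB k).image fun p => p.1 + p.2) ∪ ((anch M c ×ˢ BB k).image fun p => p.1 - p.2) ∪
    (BB k).image fun b => c + b / 2

theorem card_St (k : ℕ) (M c : ℤ) : (St k M c).card ≤ 1665 * 4 ^ k := by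
  have h := card_BB k
  have ha : (anch M c).card ≤ 7 := by
    unfold anch
    exact (Finset.card_insert_le _ _).trans (Nat.succ_le_succ Finset.card_le_six)
  have h1 : ((anch M c ×ˢ BB k).image fun p => p.1 + p.2).card ≤ 7 * (111 * 4 ^ k) := by
    refine Finset.card_image_le.trans ?_
    rw [Finset.card_product]
    exact Nat.mul_le_mul ha h
  have h2 : ((anch M c ×ˢ BB k).image fun p => p.1 - p.2).card ≤ 7 * (111 * 4 ^ k) := by
    refine Finset.card_image_le.trans ?_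
    rw [Finset.card_product]
    exact Nat.mul_le_mul ha h
  have h3 : ((BB k).image fun b => c + b / 2).card ≤ 111 * 4 ^ k := Finset.card_image_le.trans h
  unfold St
  have d1 := Finset.card_union_le (((anch M c ×ˢ BB k).image fun p => p.1 + p.2) ∪
    ((anch M c ×ˢ BB k).image fun p => p.1 - p.2)) ((BB k).image fun b => c + b / 2)
  have d2 := Finset.card_union_le ((anch M c ×ˢ BB k).image fun p => p.1 + p.2)
    ((anch M c ×ˢ BB k).image fun p => p.1 - p.2)
  omega

theorem mem_St_add {k : ℕ} {M c w b v : ℤ} (hw : w ∈ anch M c) (hb : b ∈ BB k) (hv : v = w + b) :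
    v ∈ St k M c := by
  simp only [St, Finset.mem_union]
  exact Or.inl (Or.inl (Finset.mem_image.2 ⟨(w, b), Finset.mem_product.2 ⟨hw, hb⟩, hv.symm⟩))

theorem mem_St_sub {k : ℕ} {M c w b v : ℤ} (hw : w ∈ anch M c) (hb : b ∈ BB k) (hv : v = w - b) :
    v ∈ St k M c := by
  simp only [St, Finset.mem_union]
  exact Or.inl (Or.inr (Finset.mem_image.2 ⟨(w, b), Finset.mem_product.2 ⟨hw, hb⟩, hv.symm⟩))

theorem mem_St_half {k : ℕ} {M c b v : ℤ} (hb : b ∈ BB k) (hv : v = c + b / 2) :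
    v ∈ St k M c := by
  simp only [St, Finset.mem_union]
  exact Or.inr (Finset.mem_image.2 ⟨b, hb, hv.symm⟩)

/-! ### Residues -/

def PH : Finset (ZMod 19) := {0, 1, 3, 4, 5, 6, 8, 10, 12}

/-- the covering property of a set of residues -/
def Cov (P : Finset (ZMod 19)) : Prop :=
  (∀ r : ZMod 19, ∃ c ∈ P, r + c ∈ P ∧ r - c ∈ P) ∧
  (∀ c : ZMod 19, ∃ r ∈ P, r + c ∈ P ∧ r - c ∈ P) ∧
  (∀ a : ZMod 19, ∃ r ∈ P, ∃ c ∈ P, r + c = a ∧ r - c ∈ P) ∧
  (∀ d : ZMod 19, ∃ r ∈ P, ∃ c ∈ P, r - c = d ∧ r + c ∈ P)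

theorem cov_PH : Cov PH := by unfold Cov; decide +kernel
theorem cov_PHc : Cov PHᶜ := by unfold Cov; decide +kernel

/-! ### Coverage -/

/-- the values of the lines of type `k` that are not too close to the boundary -/
noncomputable def okVals (n : ℕ) (k : Fin 4) : Finset ℤ :=
  match k with
  | 0 => Finset.Icc 18 ((n : ℤ) - 1 - 18)
  | 1 => Finset.Icc 18 ((n : ℤ) - 1 - 18)
  | 2 => Finset.Icc 36 (2 * ((n : ℤ) - 1) - 36)
  | 3 => Finset.Icc (-((n : ℤ) - 1) + 36) ((n : ℤ) - 1 - 36)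

/-- `i`, `j` are the coordinates of a cell with prescribed line `(k, v)` whose other lines are
structured and have residues in `P` -/
def Hit (n k : ℕ) (P : Finset (ZMod 19)) (t : Fin 4) (v : ℤ) (p : Fin n × Fin n) : Prop :=
  lv t p = v ∧ ∀ j, j ≠ t → lv j p ∈ St k ((n : ℤ) - 1) (((n : ℤ) - 1) / 2) ∧
    ((lv j p : ℤ) : ZMod 19) ∈ P

theorem exists_cell (n : ℕ) (i j : ℤ) (hi0 : 0 ≤ i) (hi1 : i < n) (hj0 : 0 ≤ j) (hj1 : j < n) :
    ∃ p : Fin n × Fin n, lv 0 p = i ∧ lv 1 p = j ∧ lv 2 p = i + j ∧ lv 3 p = i - j := by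
  refine ⟨(⟨i.toNat, by omega⟩, ⟨j.toNat, by omega⟩), ?_, ?_, ?_, ?_⟩ <;> simp only [lv] <;> omega

theorem cov2 (n k : ℕ) (hk : (n : ℤ) ≤ 10 ^ k) (P : Finset (ZMod 19)) (hP : Cov P) (v : ℤ)
    (hv : v ∈ okVals n 2) : ∃ p, Hit n k P 2 v p := by
  simp only [okVals, Finset.mem_Icc] at hv
  obtain ⟨r, hr, c, hc, hrc, hd⟩ := hP.2.2.1 (v : ZMod 19)
  have hfin : ∀ j : Fin 4, j ≠ 2 → j = 0 ∨ j = 1 ∨ j = 3 := by decide
  unfold Hit
  set M : ℤ := (n : ℤ) - 1 with hM
  rcases le_or_gt v M with h | h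
  · obtain ⟨x, y, hx0, hy0, hxy, hxr, hyr, hx, hy, hz⟩ := repB k v hv.1 (by omega) r c hrc.symm
    obtain ⟨p, p0, p1, p2, p3⟩ := exists_cell n x y hx0 (by omega) hy0 (by omega)
    refine ⟨p, by rw [p2, hxy], ?_⟩
    intro j hj
    rcases hfin j hj with rfl | rfl | rfl
    · rw [p0]; exact ⟨mem_St_add (w := 0) (by simp [anch]) hx (by ring), by rw [hxr]; exact hr⟩
    · rw [p1]; exact ⟨mem_St_add (w := 0) (by simp [anch]) hy (by ring), by rw [hyr]; exact hc⟩
    · rw [p3]; exact ⟨mem_St_add (w := 0) (by simp [anch]) hz (by ring), by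
        push_cast; rw [hxr, hyr]; exact hd⟩
  · obtain ⟨x, y, hx0, hy0, hxy, hxr, hyr, hx, hy, hz⟩ := repB k (2 * M - v) (by omega) (by omega)
      ((M : ZMod 19) - r) ((M : ZMod 19) - c) (by push_cast; rw [← hrc]; ring)
    obtain ⟨p, p0, p1, p2, p3⟩ := exists_cell n (M - x) (M - y) (by omega) (by omega) (by omega)
      (by omega)
    refine ⟨p, by rw [p2]; omega, ?_⟩
    intro j hj
    rcases hfin j hj with rfl | rfl | rfl
    · rw [p0]; exact ⟨mem_St_sub (w := M) (by simp [anch]) hx (by ring), by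
        push_cast; rw [hxr]; simpa using hr⟩
    · rw [p1]; exact ⟨mem_St_sub (w := M) (by simp [anch]) hy (by ring), by
        push_cast; rw [hyr]; simpa using hc⟩
    · rw [p3]; exact ⟨mem_St_sub (w := 0) (by simp [anch]) hz (by ring), by
        push_cast; rw [hxr, hyr]; simpa using hd⟩

theorem cov3 (n k : ℕ) (hk : (n : ℤ) ≤ 10 ^ k) (P : Finset (ZMod 19)) (hP : Cov P) (v : ℤ)
    (hv : v ∈ okVals n 3) : ∃ p, Hit n k P 3 v p := by
  simp only [okVals, Finset.mem_Icc] at hv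
  obtain ⟨r, hr, c, hc, hrc, hd⟩ := hP.2.2.2 (v : ZMod 19)
  have hfin : ∀ j : Fin 4, j ≠ 3 → j = 0 ∨ j = 1 ∨ j = 2 := by decide
  unfold Hit
  set M : ℤ := (n : ℤ) - 1 with hM
  rcases le_or_gt v 0 with h | h
  · -- cell `(x, M - y)`, `x + y = v + M`
    obtain ⟨x, y, hx0, hy0, hxy, hxr, hyr, hx, hy, hz⟩ := repB k (v + M) (by omega) (by omega)
      r ((M : ZMod 19) - c) (by push_cast; rw [← hrc]; ring)
    obtain ⟨p, p0, p1, p2, p3⟩ := exists_cell n x (M - y) (by omega) (by omega) (by omega)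
      (by omega)
    refine ⟨p, by rw [p3]; omega, ?_⟩
    intro j hj
    rcases hfin j hj with rfl | rfl | rfl
    · rw [p0]; exact ⟨mem_St_add (w := 0) (by simp [anch]) hx (by ring), by rw [hxr]; exact hr⟩
    · rw [p1]; exact ⟨mem_St_sub (w := M) (by simp [anch]) hy (by ring), by
        push_cast; rw [hyr]; simpa using hc⟩
    · rw [p2]; exact ⟨mem_St_add (w := M) (by simp [anch]) hz (by ring), by
        push_cast; rw [hxr, hyr]
        have : r + ((M : ZMod 19) - ((M : ZMod 19) - c)) = r + c := by ring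
        rw [this]; exact hd⟩
  · -- cell `(M - x, y)`, `x + y = M - v`
    obtain ⟨x, y, hx0, hy0, hxy, hxr, hyr, hx, hy, hz⟩ := repB k (M - v) (by omega) (by omega)
      ((M : ZMod 19) - r) c (by push_cast; rw [← hrc]; ring)
    obtain ⟨p, p0, p1, p2, p3⟩ := exists_cell n (M - x) y (by omega) (by omega) (by omega)
      (by omega)
    refine ⟨p, by rw [p3]; omega, ?_⟩
    intro j hj
    rcases hfin j hj with rfl | rfl | rfl
    · rw [p0]; exact ⟨mem_St_sub (w := M) (by simp [anch]) hx (by ring), by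
        push_cast; rw [hxr]; simpa using hr⟩
    · rw [p1]; exact ⟨mem_St_add (w := 0) (by simp [anch]) hy (by ring), by rw [hyr]; exact hc⟩
    · rw [p2]; exact ⟨mem_St_sub (w := M) (by simp [anch]) hz (by ring), by
        push_cast; rw [hxr, hyr]
        have : (M : ZMod 19) - ((M : ZMod 19) - r) + c = r + c := by ring
        rw [this]; exact hd⟩

theorem two_inj (a b : ZMod 19) (h : 2 * a = 2 * b) : a = b := by
  have h2 : (10 : ZMod 19) * 2 = 1 := by decide
  calc a = (10 * 2) * a := by rw [h2, one_mul]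
    _ = 10 * (2 * a) := by ring
    _ = 10 * (2 * b) := by rw [h]
    _ = (10 * 2) * b := by ring
    _ = b := by rw [h2, one_mul]

theorem cov0 (n k : ℕ) (hk : (n : ℤ) ≤ 10 ^ k) (P : Finset (ZMod 19)) (hP : Cov P) (v : ℤ)
    (hv : v ∈ okVals n 0) : ∃ p, Hit n k P 0 v p := by
  simp only [okVals, Finset.mem_Icc] at hv
  obtain ⟨c, hc, ha, hd⟩ := hP.1 (v : ZMod 19)
  have hfin : ∀ j : Fin 4, j ≠ 0 → j = 1 ∨ j = 2 ∨ j = 3 := by decide
  unfold Hit
  set M : ℤ := (n : ℤ) - 1 with hM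
  set c0 : ℤ := M / 2 with hc0
  rcases le_or_gt (2 * v) M with h | h
  · -- cell `(v, c0 + (x - y) / 2)`, `x + y = 2 v`
    obtain ⟨x, y, hx0, hy0, hxy, hxr, hyr, hx, hy, hz⟩ := repB k (2 * v) (by omega) (by omega)
      ((v : ZMod 19) + c - c0) ((v : ZMod 19) - c + c0) (by push_cast; ring)
    obtain ⟨w, hw⟩ : ∃ w, w = (x - y) / 2 := ⟨_, rfl⟩
    have h2w : 2 * w = x - y := by omega
    have hwr : (w : ZMod 19) = c - c0 := by
      apply two_inj
      have : ((2 * w : ℤ) : ZMod 19) = ((x - y : ℤ) : ZMod 19) := by rw [h2w]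
      push_cast at this
      rw [this, hxr, hyr]; ring
    obtain ⟨p, p0, p1, p2, p3⟩ := exists_cell n v (c0 + w) (by omega) (by omega) (by omega)
      (by omega)
    refine ⟨p, p0, ?_⟩
    intro j hj
    rcases hfin j hj with rfl | rfl | rfl
    · rw [p1]; exact ⟨mem_St_half hz (by rw [hw]), by push_cast; rw [hwr]; simpa using hc⟩
    · rw [p2]; exact ⟨mem_St_add (w := c0) (by simp [anch]) hx (by omega), by
        push_cast; rw [hwr]; simpa using ha⟩
    · rw [p3]; exact ⟨mem_St_add (w := -c0) (by simp [anch]) hy (by omega), by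
        push_cast; rw [hwr]; simpa using hd⟩
  · -- cell `(v, c0 + (x - y) / 2)`, `x + y = 2 (M - v)`
    obtain ⟨x, y, hx0, hy0, hxy, hxr, hyr, hx, hy, hz⟩ := repB k (2 * (M - v)) (by omega)
      (by omega) ((M : ZMod 19) - c0 - (v - c)) ((M : ZMod 19) + c0 - (v + c))
      (by push_cast; ring)
    obtain ⟨w, hw⟩ : ∃ w, w = (x - y) / 2 := ⟨_, rfl⟩
    have h2w : 2 * w = x - y := by omega
    have hwr : (w : ZMod 19) = c - c0 := by
      apply two_inj
      have : ((2 * w : ℤ) : ZMod 19) = ((x - y : ℤ) : ZMod 19) := by rw [h2w]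
      push_cast at this
      rw [this, hxr, hyr]; ring
    obtain ⟨p, p0, p1, p2, p3⟩ := exists_cell n v (c0 + w) (by omega) (by omega) (by omega)
      (by omega)
    refine ⟨p, p0, ?_⟩
    intro j hj
    rcases hfin j hj with rfl | rfl | rfl
    · rw [p1]; exact ⟨mem_St_half hz (by rw [hw]), by push_cast; rw [hwr]; simpa using hc⟩
    · rw [p2]; exact ⟨mem_St_sub (w := M + c0) (by simp [anch]) hy (by omega), by
        push_cast; rw [hwr]; simpa using ha⟩
    · rw [p3]; exact ⟨mem_St_sub (w := M - c0) (by simp [anch]) hx (by omega), by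
        push_cast; rw [hwr]; simpa using hd⟩

theorem cov1 (n k : ℕ) (hk : (n : ℤ) ≤ 10 ^ k) (P : Finset (ZMod 19)) (hP : Cov P) (v : ℤ)
    (hv : v ∈ okVals n 1) : ∃ p, Hit n k P 1 v p := by
  simp only [okVals, Finset.mem_Icc] at hv
  obtain ⟨r, hr, ha, hd⟩ := hP.2.1 (v : ZMod 19)
  have hfin : ∀ j : Fin 4, j ≠ 1 → j = 0 ∨ j = 2 ∨ j = 3 := by decide
  unfold Hit
  set M : ℤ := (n : ℤ) - 1 with hM
  set c0 : ℤ := M / 2 with hc0
  rcases le_or_gt (2 * v) M with h | h
  · -- cell `(c0 + w, v)`, `x = v + w`, `y = v - w`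
    obtain ⟨x, y, hx0, hy0, hxy, hxr, hyr, hx, hy, hz⟩ := repB k (2 * v) (by omega) (by omega)
      ((v : ZMod 19) + r - c0) ((v : ZMod 19) - r + c0) (by push_cast; ring)
    obtain ⟨w, hw⟩ : ∃ w, w = (x - y) / 2 := ⟨_, rfl⟩
    have h2w : 2 * w = x - y := by omega
    have hwr : (w : ZMod 19) = r - c0 := by
      apply two_inj
      have : ((2 * w : ℤ) : ZMod 19) = ((x - y : ℤ) : ZMod 19) := by rw [h2w]
      push_cast at this
      rw [this, hxr, hyr]; ring
    obtain ⟨p, p0, p1, p2, p3⟩ := exists_cell n (c0 + w) v (by omega) (by omega) (by omega)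
      (by omega)
    refine ⟨p, p1, ?_⟩
    intro j hj
    rcases hfin j hj with rfl | rfl | rfl
    · rw [p0]; exact ⟨mem_St_half hz (by rw [hw]), by push_cast; rw [hwr]; simpa using hr⟩
    · rw [p2]; exact ⟨mem_St_add (w := c0) (by simp [anch]) hx (by omega), by
        push_cast; rw [hwr]; simpa using ha⟩
    · rw [p3]; exact ⟨mem_St_sub (w := c0) (by simp [anch]) hy (by omega), by
        push_cast; rw [hwr]; simpa using hd⟩
  · -- cell `(c0 + w, v)`, `v = M - v'`, `x = v' + w`, `y = v' - w`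
    obtain ⟨x, y, hx0, hy0, hxy, hxr, hyr, hx, hy, hz⟩ := repB k (2 * (M - v)) (by omega)
      (by omega) ((M : ZMod 19) - c0 + (r - v)) ((M : ZMod 19) + c0 - (r + v))
      (by push_cast; ring)
    obtain ⟨w, hw⟩ : ∃ w, w = (x - y) / 2 := ⟨_, rfl⟩
    have h2w : 2 * w = x - y := by omega
    have hwr : (w : ZMod 19) = r - c0 := by
      apply two_inj
      have : ((2 * w : ℤ) : ZMod 19) = ((x - y : ℤ) : ZMod 19) := by rw [h2w]
      push_cast at this
      rw [this, hxr, hyr]; ring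
    obtain ⟨p, p0, p1, p2, p3⟩ := exists_cell n (c0 + w) v (by omega) (by omega) (by omega)
      (by omega)
    refine ⟨p, p1, ?_⟩
    intro j hj
    rcases hfin j hj with rfl | rfl | rfl
    · rw [p0]; exact ⟨mem_St_half hz (by rw [hw]), by push_cast; rw [hwr]; simpa using hr⟩
    · rw [p2]; exact ⟨mem_St_sub (w := M + c0) (by simp [anch]) hy (by omega), by
        push_cast; rw [hwr]; simpa using ha⟩
    · rw [p3]; exact ⟨mem_St_add (w := c0 - M) (by simp [anch]) hx (by omega), by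
        push_cast; rw [hwr]; simpa using hd⟩

theorem covAll (n k : ℕ) (hk : (n : ℤ) ≤ 10 ^ k) (P : Finset (ZMod 19)) (hP : Cov P) (t : Fin 4)
    (v : ℤ) (hv : v ∈ okVals n t) : ∃ p, Hit n k P t v p := by
  have hfin : ∀ j : Fin 4, j = 0 ∨ j = 1 ∨ j = 2 ∨ j = 3 := by decide
  rcases hfin t with rfl | rfl | rfl | rfl
  · exact cov0 n k hk P hP v hv
  · exact cov1 n k hk P hP v hv
  · exact cov2 n k hk P hP v hv
  · exact cov3 n k hk P hP v hv

end Pool.Agent.H241R2.IR
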