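import Mathlib
import Pool.Agent.H241R2.IRLower

set_option autoImplicit false
set_option maxHeartbeats 4000000

namespace Pool.Agent.H241R2.IR

open Finset

theorem lower_comb (n k : ℕ) (hn : 1 ≤ n) (hk : (n : ℤ) ≤ 10 ^ k) :
    ∃ S : Finset (Fin n × Fin n), IsIrredundant (queensGraph n) S ∧
      6 * n ≤ S.card + 218 + 4 * (1665 * 4 ^ k) := by
  classical
  set M : ℤ := (n : ℤ) - 1 with hM
  set X : Finset ℤ := St k M (M / 2) with hX
  let good : Finset (Σ _ : Fin 4, ℤ) := Finset.univ.sigma fun t => okVals n t \ X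
  have hgood : ∀ l ∈ good, l.2 ∈ okVals n l.1 ∧ l.2 ∉ X := by
    intro l hl
    have := (Finset.mem_sigma.1 hl).2
    exact Finset.mem_sdiff.1 this
  have h1 : ∀ l : Σ _ : Fin 4, ℤ, l ∈ good → ∃ p, Hit n k PH l.1 l.2 p := by
    intro l hl
    exact covAll n k hk PH cov_PH l.1 l.2 (hgood l hl).1
  have h2 : ∀ l : Σ _ : Fin 4, ℤ, l ∈ good → ∃ p, Hit n k PHᶜ l.1 l.2 p := by
    intro l hl
    exact covAll n k hk PHᶜ cov_PHc l.1 l.2 (hgood l hl).1
  have hne : Nonempty (Fin n × Fin n) := ⟨(⟨0, hn⟩, ⟨0, hn⟩)⟩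
  choose! q hq using h1
  choose! w hw using h2
  -- the cell determines the line
  have hdet : ∀ l ∈ good, ∀ l' ∈ good, ∀ j, lv j (q l) = lv j (w l') → l = l' := by
    intro l hl l' hl' j hj
    obtain ⟨a1, a2⟩ := hq l hl
    obtain ⟨b1, b2⟩ := hw l' hl'
    have g1 := (hgood l hl).2
    have g2 := (hgood l' hl').2
    by_cases c1 : j = l.1
    · by_cases c2 : j = l'.1
      · obtain ⟨t, v⟩ := l
        obtain ⟨t', v'⟩ := l'
        simp only at *
        subst c1
        subst c2
        rw [a1, b1] at hj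
        rw [hj]
      · exfalso
        apply g1
        rw [← a1, ← c1, hj]
        exact (b2 j c2).1
    · by_cases c2 : j = l'.1
      · exfalso
        apply g2
        rw [← b1, ← c2, ← hj]
        exact (a2 j c1).1
      · exfalso
        have r1 := (a2 j c1).2
        have r2 := (b2 j c2).2
        rw [← hj, Finset.mem_compl] at r2
        exact r2 r1
  have hinj : Set.InjOn q (good : Set (Σ _ : Fin 4, ℤ)) := by
    intro l hl l' hl' h
    have hl := Finset.mem_coe.1 hl
    have hl' := Finset.mem_coe.1 hl'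
    obtain ⟨a1, a2⟩ := hq l hl
    obtain ⟨b1, b2⟩ := hq l' hl'
    have g1 := (hgood l hl).2
    by_cases c : l.1 = l'.1
    · obtain ⟨t, v⟩ := l
      obtain ⟨t', v'⟩ := l'
      simp only at *
      subst c
      rw [← a1, ← b1, h]
    · exfalso
      apply g1
      rw [← a1, h]
      exact (b2 l.1 c).1
  refine ⟨good.image q, ?_, ?_⟩
  · intro v hv
    obtain ⟨l, hl, rfl⟩ := Finset.mem_image.1 hv
    refine ⟨w l, ?_, ?_⟩
    · by_cases h : w l = q l
      · exact Or.inl h
      · refine Or.inr ((adj_iff _ _).2 ⟨fun h' => h h'.symm, l.1, ?_⟩)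
        rw [(hq l hl).1, (hw l hl).1]
    · intro u hu hne hcon
      obtain ⟨l', hl', rfl⟩ := Finset.mem_image.1 hu
      have : ∃ j, lv j (q l') = lv j (w l) := by
        rcases hcon with h | h
        · exact ⟨0, by rw [h]⟩
        · obtain ⟨-, j, hj⟩ := (adj_iff _ _).1 h
          exact ⟨j, hj⟩
      obtain ⟨j, hj⟩ := this
      have := hdet l' hl' l hl j hj
      exact hne (by rw [this])
  · rw [Finset.card_image_of_injOn hinj, Finset.card_sigma, Fin.sum_univ_four]
    have hXc : X.card ≤ 1665 * 4 ^ k := card_St k M (M / 2)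
    have hs : ∀ t, (okVals n t).card ≤ (okVals n t \ X).card + X.card := fun t => by
      have := Finset.le_card_sdiff X (okVals n t)
      omega
    have s0 := hs 0
    have s1 := hs 1
    have s2 := hs 2
    have s3 := hs 3
    have k0 : n ≤ (okVals n 0).card + 36 := by
      simp only [okVals, Int.card_Icc]; omega
    have k1 : n ≤ (okVals n 1).card + 36 := by
      simp only [okVals, Int.card_Icc]; omega
    have k2 : 2 * n ≤ (okVals n 2).card + 73 := by
      simp only [okVals, Int.card_Icc]; omega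
    have k3 : 2 * n ≤ (okVals n 3).card + 73 := by
      simp only [okVals, Int.card_Icc]; omega
    omega

theorem lower_real (n : ℕ) (hn : 1 ≤ n) :
    6 * (n : ℝ) - 27000 * (n : ℝ) ^ (Real.log 4 / Real.log 10) ≤ upperIrredundance (queensGraph n) := by
  set l := Nat.log 10 n with hl
  have h1 : n < 10 ^ (l + 1) := Nat.lt_pow_succ_log_self (by norm_num) n
  have h2 : 10 ^ l ≤ n := Nat.pow_log_le_self 10 (by omega)
  obtain ⟨S, hS, hc⟩ := lower_comb n (l + 1) hn (by exact_mod_cast h1.le)
  have h3 := le_upper _ S hS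
  set β : ℝ := Real.log 4 / Real.log 10 with hβ
  have hlog10 : 0 < Real.log 10 := Real.log_pos (by norm_num)
  have hβ0 : 0 ≤ β := div_nonneg (Real.log_nonneg (by norm_num)) hlog10.le
  have h10 : (10 : ℝ) ^ β = 4 := by
    rw [Real.rpow_def_of_pos (by norm_num), hβ]
    rw [mul_div_cancel₀ _ hlog10.ne']
    exact Real.exp_log (by norm_num)
  have h4 : (4 : ℝ) ^ l ≤ (n : ℝ) ^ β := by
    calc (4 : ℝ) ^ l = ((10 : ℝ) ^ β) ^ l := by rw [h10]
      _ = ((10 : ℝ) ^ l) ^ β := by
          rw [← Real.rpow_natCast, ← Real.rpow_mul (by norm_num), mul_comm, Real.rpow_mul (by norm_num),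
            Real.rpow_natCast]
      _ ≤ (n : ℝ) ^ β := by
          apply Real.rpow_le_rpow (by positivity) _ hβ0
          exact_mod_cast h2
  have h5 : (1 : ℝ) ≤ (n : ℝ) ^ β := by
    calc (1 : ℝ) ≤ (4 : ℝ) ^ l := one_le_pow₀ (by norm_num)
      _ ≤ _ := h4
  have hc' : (6 : ℝ) * n ≤ S.card + 218 + 4 * (1665 * 4 ^ (l + 1)) := by exact_mod_cast hc
  have h3' : (S.card : ℝ) ≤ upperIrredundance (queensGraph n) := by exact_mod_cast h3
  rw [pow_succ] at hc'
  linarith

end Pool.Agent.H241R2.IR
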