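import Mathlib

set_option autoImplicit false

/-!
# A sums-differences inequality (Katz and Tao)

If `G` is a finite set of pairs of integers such that `a`, `b` and `a + b` take at most `N` values
on `G` and `a - b` is injective on `G`, then `|G| ^ 6 ≤ 432 N ^ 11`.
-/

namespace Pool.Agent.H241R2.KT

open Finset

variable {α β γ : Type} [DecidableEq β]

/-- pruning: pass to a large subset all of whose fibres under `f`, `g`, `h` are large -/
theorem prune (V : Finset α) (f g h : α → β) (M : ℕ) (hM : 0 < M)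
    (hf : (V.image f).card ≤ M) (hg : (V.image g).card ≤ M) (hh : (V.image h).card ≤ M) :
    ∃ W ⊆ V, (V.card : ℝ) / 2 ≤ W.card ∧
      ∀ v ∈ W, (V.card : ℝ) / (6 * M) ≤ (W.filter fun u => f u = f v).card ∧
        (V.card : ℝ) / (6 * M) ≤ (W.filter fun u => g u = g v).card ∧
        (V.card : ℝ) / (6 * M) ≤ (W.filter fun u => h u = h v).card := by
  classical
  set t : ℝ := (V.card : ℝ) / (6 * M) with ht
  have ht0 : 0 ≤ t := by positivity
  let P : Finset α → Prop := fun W =>
    (V.card : ℝ) - W.card ≤ t * ((((V.image f).card : ℝ) - (W.image f).card) +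
      (((V.image g).card : ℝ) - (W.image g).card) + (((V.image h).card : ℝ) - (W.image h).card))
  have hPV : P V := by simp [P]
  obtain ⟨W, hW, hmin⟩ := Finset.exists_min_image (V.powerset.filter P) Finset.card
    ⟨V, by simp [hPV]⟩
  rw [Finset.mem_filter, Finset.mem_powerset] at hW
  obtain ⟨hWV, hPW⟩ := hW
  -- general step
  have step : ∀ k : α → β, (k = f ∨ k = g ∨ k = h) → ∀ v ∈ W,
      t ≤ (W.filter fun u => k u = k v).card := by
    intro k hk v hv
    by_contra hcon
    push Not at hcon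
    set W' := W.filter fun u => ¬ k u = k v with hW'
    have hsplit : ((W.filter fun u => k u = k v).card : ℝ) + W'.card = W.card := by
      exact_mod_cast Finset.card_filter_add_card_filter_not (s := W) (fun u => k u = k v)
    have hpos : 0 < (W.filter fun u => k u = k v).card :=
      Finset.card_pos.2 ⟨v, by simp [hv]⟩
    have hsub : W' ⊆ W := Finset.filter_subset _ _
    have himk : ((W'.image k).card : ℝ) + 1 ≤ (W.image k).card := by
      have : W'.image k ⊆ (W.image k).erase (k v) := by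
        intro b hb
        obtain ⟨u, hu, rfl⟩ := Finset.mem_image.1 hb
        rw [hW', Finset.mem_filter] at hu
        exact Finset.mem_erase.2 ⟨hu.2, Finset.mem_image_of_mem _ hu.1⟩
      have h1 := Finset.card_le_card this
      rw [Finset.card_erase_of_mem (Finset.mem_image_of_mem _ hv)] at h1
      have h2 : 0 < (W.image k).card := Finset.card_pos.2 ⟨k v, Finset.mem_image_of_mem _ hv⟩
      have h3 : (W'.image k).card + 1 ≤ (W.image k).card := by omega
      exact_mod_cast h3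
    have him : ∀ k' : α → β, ((W'.image k').card : ℝ) ≤ (W.image k').card := by
      intro k'
      exact_mod_cast Finset.card_le_card (Finset.image_subset_image hsub)
    have hP' : P W' := by
      simp only [P] at hPW ⊢
      have e1 := him f
      have e2 := him g
      have e3 := him h
      have key : t + t * ((((V.image f).card : ℝ) - (W.image f).card) +
          (((V.image g).card : ℝ) - (W.image g).card) + (((V.image h).card : ℝ) - (W.image h).card))
          ≤ t * ((((V.image f).card : ℝ) - (W'.image f).card) +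
          (((V.image g).card : ℝ) - (W'.image g).card) +
          (((V.image h).card : ℝ) - (W'.image h).card)) := by
        rcases hk with rfl | rfl | rfl <;> nlinarith
      linarith
    have h1 := hmin W' (by
      rw [Finset.mem_filter, Finset.mem_powerset]
      exact ⟨hsub.trans hWV, hP'⟩)
    have h2 : (W'.card : ℝ) < W.card := by
      have : (0 : ℝ) < ((W.filter fun u => k u = k v).card : ℝ) := by exact_mod_cast hpos
      linarith
    have h3 : (W.card : ℝ) ≤ W'.card := by exact_mod_cast h1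
    linarith
  refine ⟨W, hWV, ?_, fun v hv => ⟨step f (Or.inl rfl) v hv, step g (Or.inr (Or.inl rfl)) v hv,
    step h (Or.inr (Or.inr rfl)) v hv⟩⟩
  simp only [P] at hPW
  have hf' : ((V.image f).card : ℝ) ≤ M := by exact_mod_cast hf
  have hg' : ((V.image g).card : ℝ) ≤ M := by exact_mod_cast hg
  have hh' : ((V.image h).card : ℝ) ≤ M := by exact_mod_cast hh
  have p1 : (0 : ℝ) ≤ (W.image f).card := by positivity
  have p2 : (0 : ℝ) ≤ (W.image g).card := by positivity
  have p3 : (0 : ℝ) ≤ (W.image h).card := by positivity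
  have hM' : (0 : ℝ) < M := by exact_mod_cast hM
  have hbd : t * ((((V.image f).card : ℝ) - (W.image f).card) +
      (((V.image g).card : ℝ) - (W.image g).card) + (((V.image h).card : ℝ) - (W.image h).card))
      ≤ t * (3 * M) := by
    apply mul_le_mul_of_nonneg_left _ ht0
    linarith
  have : t * (3 * M) = (V.card : ℝ) / 2 := by
    rw [ht]; field_simp; ring
  linarith

/-- extending chains by one step -/
theorem ext_count (Q : Finset γ) (W : Finset α) (last : γ → α) (hl : ∀ p ∈ Q, last p ∈ W)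
    (k : α → β) (t : ℝ) (hk : ∀ v ∈ W, t ≤ (W.filter fun u => k u = k v).card) :
    (Q.card : ℝ) * t ≤ ((Q ×ˢ W).filter fun p => k p.2 = k (last p.1)).card := by
  have e : ((Q ×ˢ W).filter fun p => k p.2 = k (last p.1)).card
      = ∑ q ∈ Q, (W.filter fun u => k u = k (last q)).card := by
    rw [Finset.card_filter, Finset.sum_product]
    refine Finset.sum_congr rfl fun q _ => ?_
    rw [Finset.card_filter]
  rw [e]
  push_cast
  calc (Q.card : ℝ) * t = ∑ q ∈ Q, t := by rw [Finset.sum_const, nsmul_eq_mul]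
    _ ≤ _ := Finset.sum_le_sum fun q hq => hk _ (hl q hq)

theorem katzTao (G : Finset (ℤ × ℤ)) (N : ℕ) (hA : (G.image Prod.fst).card ≤ N)
    (hB : (G.image Prod.snd).card ≤ N) (hC : (G.image fun p => p.1 + p.2).card ≤ N)
    (hinj : Set.InjOn (fun p : ℤ × ℤ => p.1 - p.2) G) : G.card ^ 6 ≤ 432 * N ^ 11 := by
  classical
  rcases Nat.eq_zero_or_pos N with hN | hN
  · subst hN
    have : G = ∅ := by
      have := Finset.card_eq_zero.1 (Nat.le_zero.1 hA)
      simpa using this
    simp [this]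
  set A := G.image Prod.fst with hAdef
  set B := G.image Prod.snd with hBdef
  set C := G.image (fun p => p.1 + p.2) with hCdef
  set V : Finset ((ℤ × ℤ) × (ℤ × ℤ)) := (G ×ˢ G).filter fun p => p.1.1 = p.2.1 with hV
  have hVmem : ∀ v, v ∈ V ↔ v.1 ∈ G ∧ v.2 ∈ G ∧ v.1.1 = v.2.1 := by
    intro v
    rw [hV, Finset.mem_filter, Finset.mem_product]
    tauto
  -- `|G|^2 ≤ N |V|`
  have hGV : G.card ^ 2 ≤ N * V.card := by
    have e1 : G.card = ∑ a ∈ A, (G.filter fun p => p.1 = a).card :=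
      Finset.card_eq_sum_card_image Prod.fst G
    have e2 : V.card = ∑ a ∈ A, (G.filter fun p => p.1 = a).card ^ 2 := by
      rw [Finset.card_eq_sum_card_fiberwise (f := fun v : (ℤ × ℤ) × (ℤ × ℤ) => v.1.1) (t := A)]
      · refine Finset.sum_congr rfl fun a _ => ?_
        rw [sq, ← Finset.card_product]
        congr 1
        ext v
        simp only [Finset.mem_filter, Finset.mem_product, hVmem]
        constructor
        · rintro ⟨⟨h1, h2, h3⟩, h4⟩
          exact ⟨⟨h1, h4⟩, h2, h3 ▸ h4⟩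
        · rintro ⟨⟨h1, h4⟩, h2, h5⟩
          exact ⟨⟨h1, h2, h4.trans h5.symm⟩, h4⟩
      · intro v hv
        have hv' := (hVmem v).1 hv
        exact Finset.mem_coe.2 (Finset.mem_image_of_mem _ hv'.1)
    have h3 := sq_sum_le_card_mul_sum_sq (s := A)
      (f := fun a => (G.filter fun p : ℤ × ℤ => p.1 = a).card)
    rw [← e1, ← e2] at h3
    exact h3.trans (Nat.mul_le_mul_right _ hA)
  -- the three maps
  let f : (ℤ × ℤ) × (ℤ × ℤ) → ℤ × ℤ := fun v => (v.1.1 + v.1.2, v.2.1 + v.2.2)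
  let g : (ℤ × ℤ) × (ℤ × ℤ) → ℤ × ℤ := fun v => (v.1.2, v.2.2)
  let h : (ℤ × ℤ) × (ℤ × ℤ) → ℤ × ℤ := fun v => (v.1.2, v.2.1 + v.2.2)
  have cf : (V.image f).card ≤ N * N := by
    have : V.image f ⊆ C ×ˢ C := by
      intro x hx
      obtain ⟨v, hv, rfl⟩ := Finset.mem_image.1 hx
      have hv' := (hVmem v).1 hv
      have m1 : v.1.1 + v.1.2 ∈ C :=
        Finset.mem_image_of_mem (fun p : ℤ × ℤ => p.1 + p.2) hv'.1
      have m2 : v.2.1 + v.2.2 ∈ C :=
        Finset.mem_image_of_mem (fun p : ℤ × ℤ => p.1 + p.2) hv'.2.1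
      exact Finset.mem_product.2 ⟨m1, m2⟩
    refine (Finset.card_le_card this).trans ?_
    rw [Finset.card_product]
    exact Nat.mul_le_mul hC hC
  have cg : (V.image g).card ≤ N * N := by
    have : V.image g ⊆ B ×ˢ B := by
      intro x hx
      obtain ⟨v, hv, rfl⟩ := Finset.mem_image.1 hx
      have hv' := (hVmem v).1 hv
      have m1 : v.1.2 ∈ B := Finset.mem_image_of_mem Prod.snd hv'.1
      have m2 : v.2.2 ∈ B := Finset.mem_image_of_mem Prod.snd hv'.2.1
      exact Finset.mem_product.2 ⟨m1, m2⟩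
    refine (Finset.card_le_card this).trans ?_
    rw [Finset.card_product]
    exact Nat.mul_le_mul hB hB
  have ch : (V.image h).card ≤ N * N := by
    have : V.image h ⊆ B ×ˢ C := by
      intro x hx
      obtain ⟨v, hv, rfl⟩ := Finset.mem_image.1 hx
      have hv' := (hVmem v).1 hv
      have m1 : v.1.2 ∈ B := Finset.mem_image_of_mem Prod.snd hv'.1
      have m2 : v.2.1 + v.2.2 ∈ C :=
        Finset.mem_image_of_mem (fun p : ℤ × ℤ => p.1 + p.2) hv'.2.1
      exact Finset.mem_product.2 ⟨m1, m2⟩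
    refine (Finset.card_le_card this).trans ?_
    rw [Finset.card_product]
    exact Nat.mul_le_mul hB hC
  obtain ⟨W, hWV, hWc, hfib⟩ := prune V f g h (N * N) (Nat.mul_pos hN hN) cf cg ch
  set t : ℝ := (V.card : ℝ) / (6 * (N * N : ℕ)) with ht
  have ht0 : 0 ≤ t := by positivity
  set Q1 := (W ×ˢ W).filter fun p => f p.2 = f p.1 with hQ1
  set Q2 := (Q1 ×ˢ W).filter fun p => g p.2 = g p.1.2 with hQ2
  set Q3 := (Q2 ×ˢ W).filter fun p => h p.2 = h p.1.2 with hQ3
  have c1 : (W.card : ℝ) * t ≤ Q1.card :=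
    ext_count W W (fun v => v) (fun _ h => h) f t (fun v hv => (hfib v hv).1)
  have c2 : (Q1.card : ℝ) * t ≤ Q2.card := by
    refine ext_count Q1 W (fun p => p.2) ?_ g t (fun v hv => (hfib v hv).2.1)
    intro p hp
    rw [hQ1, Finset.mem_filter, Finset.mem_product] at hp
    exact hp.1.2
  have c3 : (Q2.card : ℝ) * t ≤ Q3.card := by
    refine ext_count Q2 W (fun p => p.2) ?_ h t (fun v hv => (hfib v hv).2.2)
    intro p hp
    rw [hQ2, Finset.mem_filter, Finset.mem_product] at hp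
    exact hp.1.2
  -- upper bound for the number of chains
  have cup : Q3.card ≤ V.card * (N * N) := by
    have hcard : (V ×ˢ (A ×ˢ B)).card ≤ V.card * (N * N) := by
      rw [Finset.card_product, Finset.card_product]
      exact Nat.mul_le_mul_left _ (Nat.mul_le_mul hA hB)
    refine le_trans ?_ hcard
    have hmem : ∀ p ∈ Q3, p.1.1.1 ∈ W ∧ p.1.1.2 ∈ W ∧ p.1.2 ∈ W ∧ p.2 ∈ W ∧
        f p.1.1.2 = f p.1.1.1 ∧ g p.1.2 = g p.1.1.2 ∧ h p.2 = h p.1.2 := by
      intro p hp
      rw [hQ3, Finset.mem_filter, Finset.mem_product, hQ2, Finset.mem_filter, Finset.mem_product,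
        hQ1, Finset.mem_filter, Finset.mem_product] at hp
      obtain ⟨⟨⟨⟨⟨⟨h1, h2⟩, h3⟩, h4⟩, h5⟩, h6⟩, h7⟩ := hp
      exact ⟨h1, h2, h4, h6, h3, h5, h7⟩
    refine Finset.card_le_card_of_injOn
      (fun p => (p.1.1.1, (p.1.2.1.1, p.2.2.2))) ?_ ?_
    · intro p hp
      have hp' := hmem p (Finset.mem_coe.1 hp)
      obtain ⟨h1, h2, h3, h4, -⟩ := hp'
      have m1 : p.1.2.1.1 ∈ A := Finset.mem_image_of_mem Prod.fst ((hVmem _).1 (hWV h3)).1
      have m2 : p.2.2.2 ∈ B := Finset.mem_image_of_mem Prod.snd ((hVmem _).1 (hWV h4)).2.1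
      exact Finset.mem_coe.2 (Finset.mem_product.2 ⟨hWV h1, Finset.mem_product.2 ⟨m1, m2⟩⟩)
    · intro p hp q hq hpq
      obtain ⟨p0, p1, p2, p3, ef, eg, eh⟩ := hmem p (Finset.mem_coe.1 hp)
      obtain ⟨q0, q1, q2, q3, ef', eg', eh'⟩ := hmem q (Finset.mem_coe.1 hq)
      have p0' := (hVmem _).1 (hWV p0)
      have p1' := (hVmem _).1 (hWV p1)
      have p2' := (hVmem _).1 (hWV p2)
      have p3' := (hVmem _).1 (hWV p3)
      have q0' := (hVmem _).1 (hWV q0)
      have q1' := (hVmem _).1 (hWV q1)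
      have q2' := (hVmem _).1 (hWV q2)
      have q3' := (hVmem _).1 (hWV q3)
      obtain ⟨⟨⟨v0, v1⟩, v2⟩, v3⟩ := p
      obtain ⟨⟨⟨u0, u1⟩, u2⟩, u3⟩ := q
      obtain ⟨⟨a0, b0⟩, ⟨a0', b0'⟩⟩ := v0
      obtain ⟨⟨a1, b1⟩, ⟨a1', b1'⟩⟩ := v1
      obtain ⟨⟨a2, b2⟩, ⟨a2', b2'⟩⟩ := v2
      obtain ⟨⟨a3, b3⟩, ⟨a3', b3'⟩⟩ := v3
      obtain ⟨⟨c0, d0⟩, ⟨c0', d0'⟩⟩ := u0
      obtain ⟨⟨c1, d1⟩, ⟨c1', d1'⟩⟩ := u1
      obtain ⟨⟨c2, d2⟩, ⟨c2', d2'⟩⟩ := u2
      obtain ⟨⟨c3, d3⟩, ⟨c3', d3'⟩⟩ := u3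
      simp only [f, g, h, Prod.mk.injEq] at *
      have key : (a3, b3) = (c3, d3) := by
        apply hinj (Finset.mem_coe.2 p3'.1) (Finset.mem_coe.2 q3'.1)
        simp only
        omega
      rw [Prod.mk.injEq] at key
      refine ⟨⟨⟨⟨⟨?_, ?_⟩, ?_, ?_⟩, ⟨?_, ?_⟩, ?_, ?_⟩, ⟨?_, ?_⟩, ?_, ?_⟩, ⟨?_, ?_⟩, ?_, ?_⟩ <;> omega
  -- conclusion
  have hVpos : 0 ≤ (V.card : ℝ) := by positivity
  have hNr : (0 : ℝ) < (N : ℝ) := by exact_mod_cast hN
  have main : (V.card : ℝ) ^ 3 * V.card ≤ 432 * (N : ℝ) ^ 8 * V.card := by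
    have d1 : (V.card : ℝ) / 2 * t * t * t ≤ Q3.card := by
      have e1 : (V.card : ℝ) / 2 * t ≤ Q1.card :=
        (mul_le_mul_of_nonneg_right hWc ht0).trans c1
      have e2 : (V.card : ℝ) / 2 * t * t ≤ Q2.card :=
        (mul_le_mul_of_nonneg_right e1 ht0).trans c2
      exact (mul_le_mul_of_nonneg_right e2 ht0).trans c3
    have d2 : (Q3.card : ℝ) ≤ V.card * ((N : ℝ) * N) := by exact_mod_cast cup
    have d3 := d1.trans d2
    rw [ht] at d3
    push_cast at d3
    have e3 : (V.card : ℝ) / 2 * (V.card / (6 * (N * N))) * (V.card / (6 * (N * N)))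
        * (V.card / (6 * (N * N))) = (V.card : ℝ) ^ 3 * V.card / (432 * (N : ℝ) ^ 6) := by
      field_simp
      ring
    rw [e3, div_le_iff₀ (by positivity)] at d3
    calc (V.card : ℝ) ^ 3 * V.card ≤ _ := d3
      _ = _ := by ring
  have main2 : (V.card : ℝ) ^ 3 ≤ 432 * (N : ℝ) ^ 8 := by
    rcases eq_or_lt_of_le hVpos with h0 | h0
    · rw [← h0]
      have : (0 : ℝ) ≤ 432 * (N : ℝ) ^ 8 := by positivity
      simpa using this
    · exact le_of_mul_le_mul_right main h0
  have main3 : V.card ^ 3 ≤ 432 * N ^ 8 := by exact_mod_cast main2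
  calc G.card ^ 6 = (G.card ^ 2) ^ 3 := by ring
    _ ≤ (N * V.card) ^ 3 := Nat.pow_le_pow_left hGV 3
    _ = N ^ 3 * V.card ^ 3 := by ring
    _ ≤ N ^ 3 * (432 * N ^ 8) := Nat.mul_le_mul_left _ main3
    _ = 432 * N ^ 11 := by ring

end Pool.Agent.H241R2.KT
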