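import Mathlib
import Pool.Agent.H241R2.IRDefs
import Pool.Agent.H241R2.KatzTao

set_option autoImplicit false

namespace Pool.Agent.H241R2.IR

open Finset

/-- the values of the lines of type `k` -/
noncomputable def lineVals (n : ℕ) (k : Fin 4) : Finset ℤ :=
  match k with
  | 0 => Finset.Ico 0 (n : ℤ)
  | 1 => Finset.Ico 0 (n : ℤ)
  | 2 => Finset.Ico 0 (2 * n - 1 : ℤ)
  | 3 => Finset.Ioo (-n : ℤ) n

theorem lv_mem {n : ℕ} (k : Fin 4) (p : Fin n × Fin n) : lv k p ∈ lineVals n k := by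
  have h1 := p.1.isLt
  have h2 := p.2.isLt
  fin_cases k <;> simp only [lv, lineVals, Finset.mem_Ico, Finset.mem_Ioo] <;> omega

theorem card_lineVals (n : ℕ) (hn : 1 ≤ n) :
    (lineVals n 0).card = n ∧ (lineVals n 1).card = n ∧ (lineVals n 2).card = 2 * n - 1 ∧
      (lineVals n 3).card = 2 * n - 1 := by
  refine ⟨?_, ?_, ?_, ?_⟩
  · simp [lineVals]
  · simp [lineVals]
  · simp only [lineVals, Int.card_Ico]; omega
  · simp only [lineVals, Int.card_Ioo]; omega

/-- the values of the empty lines of type `k` -/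
noncomputable def emptyVals {n : ℕ} (S : Finset (Fin n × Fin n)) (k : Fin 4) : Finset ℤ :=
  (lineVals n k).filter fun v => ∀ u ∈ S, lv k u ≠ v

theorem upper_comb {n : ℕ} (hn : 1 ≤ n) (S : Finset (Fin n × Fin n))
    (hS : IsIrredundant (queensGraph n) S) :
    ∃ N R : ℕ, S.card + N + 2 ≤ 6 * n ∧ S.card + 2 ≤ 5 * n + R ∧ R ^ 6 ≤ 432 * N ^ 11 := by
  classical
  -- private neighbours and lines
  have h1 : ∀ v : Fin n × Fin n, ∃ w : Fin n × Fin n, ∃ k : Fin 4, v ∈ S →
      lv k v = lv k w ∧ (∀ u ∈ S, u ≠ v → ∀ j, lv j u ≠ lv j w) ∧ (w = v → k = 1) := by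
    intro v
    by_cases hv : v ∈ S
    · obtain ⟨w, hw, hp⟩ := hS v hv
      have hpriv : ∀ u ∈ S, u ≠ v → ∀ j, lv j u ≠ lv j w := by
        intro u hu huv j hj
        apply hp u hu huv
        by_cases hwu : w = u
        · exact Or.inl hwu
        · exact Or.inr ((adj_iff u w).2 ⟨fun h => hwu h.symm, j, hj⟩)
      by_cases hwv : w = v
      · exact ⟨w, 1, fun _ => ⟨by rw [hwv], hpriv, fun _ => rfl⟩⟩
      · rcases hw with hw | hw
        · exact absurd hw hwv
        · obtain ⟨-, k, hk⟩ := (adj_iff v w).1 hw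
          exact ⟨w, k, fun _ => ⟨hk, hpriv, fun h => absurd h hwv⟩⟩
    · exact ⟨v, 0, fun h => absurd h hv⟩
  choose w k hwk using h1
  -- the line of `v` contains no other queen
  have hsole : ∀ v ∈ S, ∀ u ∈ S, lv (k v) u = lv (k v) v → u = v := by
    intro v hv u hu h
    by_contra huv
    exact (hwk v hv).2.1 u hu huv (k v) (by rw [h, (hwk v hv).1])
  let E : Fin 4 → Finset ℤ := emptyVals S
  let Sk : Fin 4 → Finset (Fin n × Fin n) := fun j => S.filter fun v => k v = j
  have hSk : ∀ j, (Sk j).card + (E j).card ≤ (lineVals n j).card := by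
    intro j
    have hinj : Set.InjOn (lv j) (Sk j : Set (Fin n × Fin n)) := by
      intro v hv u hu h
      have hv' := Finset.mem_filter.1 (Finset.mem_coe.1 hv)
      have hu' := Finset.mem_filter.1 (Finset.mem_coe.1 hu)
      refine (hsole v hv'.1 u hu'.1 ?_).symm
      rw [hv'.2, h]
    rw [← Finset.card_image_of_injOn hinj, ← Finset.card_union_of_disjoint]
    · apply Finset.card_le_card
      intro x hx
      rcases Finset.mem_union.1 hx with hx | hx
      · obtain ⟨v, -, rfl⟩ := Finset.mem_image.1 hx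
        exact lv_mem j v
      · exact (Finset.mem_filter.1 hx).1
    · rw [Finset.disjoint_left]
      intro x hx hx'
      obtain ⟨v, hv, rfl⟩ := Finset.mem_image.1 hx
      exact (Finset.mem_filter.1 hx').2 v (Finset.mem_filter.1 hv).1 rfl
  have hScard : S.card = (Sk 0).card + (Sk 1).card + (Sk 2).card + (Sk 3).card := by
    have := Finset.card_eq_sum_card_fiberwise (f := k) (s := S) (t := Finset.univ)
      (fun _ _ => Finset.mem_coe.2 (Finset.mem_univ _))
    rw [this, Fin.sum_univ_four]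
  obtain ⟨c0, c1, c2, c3⟩ := card_lineVals n hn
  have e0 := hSk 0
  have e1 := hSk 1
  have e2 := hSk 2
  have e3 := hSk 3
  rw [c0] at e0
  rw [c1] at e1
  rw [c2] at e2
  rw [c3] at e3
  refine ⟨(E 0).card + (E 1).card + (E 2).card + (E 3).card, (Sk 0).card, by omega, by omega, ?_⟩
  -- the rows
  have hrow : ∀ v ∈ Sk 0, v ∈ S ∧ lv 0 v = lv 0 (w v) ∧ lv 1 (w v) ∈ E 1 ∧ lv 2 (w v) ∈ E 2 ∧
      lv 3 (w v) ∈ E 3 := by
    intro v hv
    obtain ⟨hvS, hk0⟩ := Finset.mem_filter.1 hv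
    have hw := hwk v hvS
    rw [hk0] at hw
    have hne : w v ≠ v := by
      intro h
      have := hw.2.2 h
      exact absurd this (by decide)
    have hempty : ∀ j : Fin 4, j ≠ 0 → lv j (w v) ∈ E j := by
      intro j hj
      refine Finset.mem_filter.2 ⟨lv_mem j _, ?_⟩
      intro u hu h
      by_cases huv : u = v
      · subst huv
        exact hne (eq_of_two_lines _ _ j 0 hj h.symm hw.1.symm)
      · exact hw.2.1 u hu huv j h
    exact ⟨hvS, hw.1, hempty 1 (by decide), hempty 2 (by decide), hempty 3 (by decide)⟩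
  let F : Fin n × Fin n → ℤ × ℤ := fun v => (lv 2 (w v), - lv 3 (w v))
  have hFinj : Set.InjOn F (Sk 0 : Set (Fin n × Fin n)) := by
    intro v hv u hu h
    have hv' := hrow v (Finset.mem_coe.1 hv)
    have hu' := hrow u (Finset.mem_coe.1 hu)
    have hk0 := (Finset.mem_filter.1 (Finset.mem_coe.1 hv)).2
    simp only [F, Prod.mk.injEq] at h
    refine (hsole v hv'.1 u hu'.1 ?_).symm
    rw [hk0, hv'.2.1, hu'.2.1]
    simp only [lv] at h ⊢
    omega
  have hG := KT.katzTao ((Sk 0).image F)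
    ((E 0).card + (E 1).card + (E 2).card + (E 3).card) ?_ ?_ ?_ ?_
  · rwa [Finset.card_image_of_injOn hFinj] at hG
  · have : ((Sk 0).image F).image Prod.fst ⊆ E 2 := by
      intro x hx
      obtain ⟨y, hy, rfl⟩ := Finset.mem_image.1 hx
      obtain ⟨v, hv, rfl⟩ := Finset.mem_image.1 hy
      exact (hrow v hv).2.2.2.1
    have := Finset.card_le_card this
    omega
  · have : ((Sk 0).image F).image Prod.snd ⊆ (E 3).image (fun x => -x) := by
      intro x hx
      obtain ⟨y, hy, rfl⟩ := Finset.mem_image.1 hx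
      obtain ⟨v, hv, rfl⟩ := Finset.mem_image.1 hy
      exact Finset.mem_image_of_mem (fun x : ℤ => -x) (hrow v hv).2.2.2.2
    have := (Finset.card_le_card this).trans Finset.card_image_le
    omega
  · have : ((Sk 0).image F).image (fun p => p.1 + p.2) ⊆ (E 1).image (fun x => 2 * x) := by
      intro x hx
      obtain ⟨y, hy, rfl⟩ := Finset.mem_image.1 hx
      obtain ⟨v, hv, rfl⟩ := Finset.mem_image.1 hy
      refine Finset.mem_image.2 ⟨lv 1 (w v), (hrow v hv).2.2.1, ?_⟩
      simp only [F, lv]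
      ring
    have := (Finset.card_le_card this).trans Finset.card_image_le
    omega
  · intro x hx y hy h
    obtain ⟨v, hv, rfl⟩ := Finset.mem_image.1 (Finset.mem_coe.1 hx)
    obtain ⟨u, hu, rfl⟩ := Finset.mem_image.1 (Finset.mem_coe.1 hy)
    have hv' := hrow v hv
    have hu' := hrow u hu
    have hk0 := (Finset.mem_filter.1 hv).2
    have : u = v := by
      refine hsole v hv'.1 u hu'.1 ?_
      rw [hk0, hv'.2.1, hu'.2.1]
      simp only [F, lv] at h ⊢
      omega
    rw [this]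

theorem upper_real {n : ℕ} (hn : 1 ≤ n) (S : Finset (Fin n × Fin n))
    (hS : IsIrredundant (queensGraph n) S) :
    (S.card : ℝ) ≤ 6 * n - 3 / 8 * (n : ℝ) ^ ((6 : ℝ) / 11) := by
  obtain ⟨N, R, h1, h2, h3⟩ := upper_comb hn S hS
  set T : ℝ := (n : ℝ) ^ ((6 : ℝ) / 11) with hT
  have hn' : (1 : ℝ) ≤ n := by exact_mod_cast hn
  have hT0 : 0 ≤ T := by positivity
  have hT11 : T ^ 11 = (n : ℝ) ^ 6 := by
    rw [hT, ← Real.rpow_natCast, ← Real.rpow_mul (by positivity)]
    norm_num
  have hTn : T ≤ n := by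
    calc T ≤ (n : ℝ) ^ (1 : ℝ) := Real.rpow_le_rpow_of_exponent_le hn' (by norm_num)
      _ = n := Real.rpow_one _
  have h1' : (S.card : ℝ) + N + 2 ≤ 6 * n := by exact_mod_cast h1
  have h2' : (S.card : ℝ) + 2 ≤ 5 * n + R := by exact_mod_cast h2
  have h3' : (R : ℝ) ^ 6 ≤ 432 * (N : ℝ) ^ 11 := by exact_mod_cast h3
  by_cases hN : 3 / 8 * T ≤ N
  · linarith
  · push Not at hN
    have hN11 : (N : ℝ) ^ 11 ≤ (3 / 8 * T) ^ 11 := pow_le_pow_left₀ (by positivity) hN.le 11
    have hR6 : (R : ℝ) ^ 6 ≤ ((n : ℝ) / 2) ^ 6 := by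
      calc (R : ℝ) ^ 6 ≤ 432 * (3 / 8 * T) ^ 11 := h3'.trans (by linarith)
        _ = 432 * (3 / 8) ^ 11 * (n : ℝ) ^ 6 := by rw [mul_pow, hT11]; ring
        _ ≤ (1 / 64) * (n : ℝ) ^ 6 := by
            apply mul_le_mul_of_nonneg_right _ (by positivity)
            norm_num
        _ = ((n : ℝ) / 2) ^ 6 := by ring
    have hR : (R : ℝ) ≤ n / 2 := le_of_pow_le_pow_left₀ (by norm_num) (by positivity) hR6
    linarith

end Pool.Agent.H241R2.IR
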