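import Mathlib

set_option autoImplicit false

namespace Pool.Agent.H241R2.Queens

/-- the nonattacking condition on the torus -/
def NA (n : ℕ) (S : Finset (ZMod n × ZMod n)) : Prop :=
  ∀ p ∈ S, ∀ q ∈ S, p ≠ q →
    p.1 ≠ q.1 ∧ p.2 ≠ q.2 ∧ p.1 + p.2 ≠ q.1 + q.2 ∧ p.1 - p.2 ≠ q.1 - q.2

/-! ### Upper bound -/

theorem sum_sq_nat (n : ℕ) : 6 * ∑ i ∈ Finset.range (n + 1), i ^ 2 = n * (n + 1) * (2 * n + 1) := by
  induction n with
  | zero => simp
  | succ n ih =>
    rw [Finset.sum_range_succ, mul_add, ih]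
    ring

theorem sum_univ_zmod (n : ℕ) [NeZero n] (f : ZMod n → ZMod n) :
    ∑ x : ZMod n, f x = ∑ i ∈ Finset.range n, f (i : ZMod n) := by
  symm
  refine Finset.sum_bij (s := Finset.range n) (t := Finset.univ)
    (f := fun i : ℕ => f (i : ZMod n)) (g := f) (fun (i : ℕ) _ => (i : ZMod n)) ?_ ?_ ?_ ?_
  · intro i _; exact Finset.mem_univ _
  · intro i hi j hj hij
    rw [Finset.mem_range] at hi hj
    have := (ZMod.natCast_eq_natCast_iff' i j n).1 hij
    rwa [Nat.mod_eq_of_lt hi, Nat.mod_eq_of_lt hj] at this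
  · intro b _
    exact ⟨b.val, Finset.mem_range.2 (ZMod.val_lt b), by simp⟩
  · intro i _; rfl

theorem two_mul_sum (n : ℕ) [NeZero n] : 2 * ∑ x : ZMod n, x = 0 := by
  have h : ∑ x : ZMod n, x = ∑ x : ZMod n, (-x) :=
    (Equiv.sum_comp (Equiv.neg (ZMod n)) (fun x => x)).symm
  rw [Finset.sum_neg_distrib] at h
  rw [two_mul]
  nth_rewrite 1 [h]
  simp

theorem two_mul_sum_sq_ne (m : ℕ) : haveI : NeZero (6 * (m + 1)) := ⟨by omega⟩
    2 * ∑ x : ZMod (6 * (m + 1)), x ^ 2 ≠ 0 := by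
  have : NeZero (6 * (m + 1)) := ⟨by omega⟩
  intro h
  rw [sum_univ_zmod] at h
  have h1 : ((2 * ∑ i ∈ Finset.range (6 * (m + 1)), i ^ 2 : ℕ) : ZMod (6 * (m + 1))) = 0 := by
    push_cast
    exact_mod_cast h
  rw [ZMod.natCast_eq_zero_iff] at h1
  have h2 := sum_sq_nat (6 * m + 5)
  have e : 6 * m + 5 + 1 = 6 * (m + 1) := by ring
  rw [e] at h2
  have h3 : ∑ i ∈ Finset.range (6 * (m + 1)), i ^ 2 = (m + 1) * ((6 * m + 5) * (12 * m + 11)) := by
    have : 6 * ∑ i ∈ Finset.range (6 * (m + 1)), i ^ 2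
        = 6 * ((m + 1) * ((6 * m + 5) * (12 * m + 11))) := by
      rw [h2]; ring
    omega
  rw [h3] at h1
  obtain ⟨t, ht⟩ := h1
  have h4 : 2 * ((6 * m + 5) * (12 * m + 11)) = 6 * t := by
    have : (m + 1) * (2 * ((6 * m + 5) * (12 * m + 11))) = (m + 1) * (6 * t) := by
      calc (m + 1) * (2 * ((6 * m + 5) * (12 * m + 11)))
          = 2 * ((m + 1) * ((6 * m + 5) * (12 * m + 11))) := by ring
        _ = 6 * (m + 1) * t := ht
        _ = (m + 1) * (6 * t) := by ring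
    exact Nat.eq_of_mul_eq_mul_left (by omega) this
  have h5 : (6 * m + 5) * (12 * m + 11) = 3 * (24 * m * m + 42 * m + 18) + 1 := by ring
  omega

/-- a partial injection missing one value -/
theorem exists_missing {n : ℕ} [NeZero n] {A : Type} [DecidableEq A] (S : Finset A)
    (hS : S.card + 1 = n) (f : A → ZMod n) (hf : Set.InjOn f S) :
    ∃ a : ZMod n, ∀ g : ZMod n → ZMod n, ∑ p ∈ S, g (f p) = (∑ x : ZMod n, g x) - g a := by
  classical
  have hc : (S.image f).card = S.card := Finset.card_image_of_injOn hf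
  have hc2 : ((S.image f)ᶜ).card = 1 := by
    rw [Finset.card_compl, hc, ZMod.card]; omega
  obtain ⟨a, ha⟩ := Finset.card_eq_one.1 hc2
  refine ⟨a, fun g => ?_⟩
  rw [← Finset.sum_image (s := S) (g := f) (f := g) hf, ← Finset.sum_add_sum_compl (S.image f) g,
    ha]
  simp

theorem upper (m : ℕ) (S : Finset (ZMod (6 * (m + 1)) × ZMod (6 * (m + 1))))
    (hS : NA (6 * (m + 1)) S) : S.card ≤ 6 * (m + 1) - 2 := by
  have : NeZero (6 * (m + 1)) := ⟨by omega⟩
  by_contra hcon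
  obtain ⟨S', hsub, hcard⟩ := Finset.exists_subset_card_eq
    (by omega : 6 * (m + 1) - 1 ≤ S.card)
  have hS' : NA (6 * (m + 1)) S' := fun p hp q hq => hS p (hsub hp) q (hsub hq)
  have i1 : Set.InjOn (fun p : ZMod (6 * (m + 1)) × ZMod (6 * (m + 1)) => p.1) S' := by
    intro p hp q hq h; by_contra hne; exact (hS' p hp q hq hne).1 h
  have i2 : Set.InjOn (fun p : ZMod (6 * (m + 1)) × ZMod (6 * (m + 1)) => p.2) S' := by
    intro p hp q hq h; by_contra hne; exact (hS' p hp q hq hne).2.1 h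
  have i3 : Set.InjOn (fun p : ZMod (6 * (m + 1)) × ZMod (6 * (m + 1)) => p.1 + p.2) S' := by
    intro p hp q hq h; by_contra hne; exact (hS' p hp q hq hne).2.2.1 h
  have i4 : Set.InjOn (fun p : ZMod (6 * (m + 1)) × ZMod (6 * (m + 1)) => p.1 - p.2) S' := by
    intro p hp q hq h; by_contra hne; exact (hS' p hp q hq hne).2.2.2 h
  obtain ⟨a, ha⟩ := exists_missing S' (by omega) _ i1
  obtain ⟨c, hc⟩ := exists_missing S' (by omega) _ i2
  obtain ⟨e, he⟩ := exists_missing S' (by omega) _ i3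
  obtain ⟨g, hg⟩ := exists_missing S' (by omega) _ i4
  have a1 := ha (fun x => x)
  have c1 := hc (fun x => x)
  have e1 := he (fun x => x)
  have g1 := hg (fun x => x)
  have a2 := ha (fun x => x ^ 2)
  have c2 := hc (fun x => x ^ 2)
  have e2 := he (fun x => x ^ 2)
  have g2 := hg (fun x => x ^ 2)
  beta_reduce at a1 c1 e1 g1 a2 c2 e2 g2
  rw [Finset.sum_add_distrib] at e1
  rw [Finset.sum_sub_distrib] at g1
  have q1 : ∑ p ∈ S', (p.1 + p.2) ^ 2 + ∑ p ∈ S', (p.1 - p.2) ^ 2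
      = 2 * ∑ p ∈ S', p.1 ^ 2 + 2 * ∑ p ∈ S', p.2 ^ 2 := by
    rw [Finset.mul_sum, Finset.mul_sum, ← Finset.sum_add_distrib, ← Finset.sum_add_distrib]
    refine Finset.sum_congr rfl fun p _ => ?_
    ring
  have hT := two_mul_sum (6 * (m + 1))
  apply two_mul_sum_sq_ne m
  set T := ∑ x : ZMod (6 * (m + 1)), x with hTdef
  set Q := ∑ x : ZMod (6 * (m + 1)), x ^ 2 with hQdef
  rw [e2, g2, a2, c2] at q1
  rw [a1, c1] at e1 g1
  have he' : e = a + c - T := by linear_combination e1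
  have hg' : g = T + a - c := by linear_combination g1
  rw [he', hg'] at q1
  linear_combination -q1 + (2 * c - T) * hT

end Pool.Agent.H241R2.Queens
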