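import Mathlib
import Pool.Agent.H241R2.Queens

set_option autoImplicit false
set_option maxHeartbeats 4000000

namespace Pool.Agent.H241R2.Queens

/-! ### Construction for `n = 12 k + 6` -/

/-- the placement on the board of side `12 k + 6` -/
def P6 (k x y : ℤ) : Prop :=
  (0 ≤ x ∧ x < k ∧ y = 2 * x) ∨
  (k ≤ x ∧ x < 3 * k ∧ y = 2 * x + 1) ∨
  (x = 3 * k + 1 ∧ y = 2 * x + 6 * k + 1) ∨
  (3 * k + 2 ≤ x ∧ x ≤ 7 * k + 2 ∧ x ≠ 6 * k + 2 ∧ y = 2 * x - 1) ∨
  (x = 6 * k + 2 ∧ y = 2 * x + 6 * k + 3) ∨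
  (7 * k + 4 ≤ x ∧ x ≤ 9 * k + 3 ∧ y = 2 * x - 2) ∨
  (9 * k + 4 ≤ x ∧ x ≤ 12 * k + 4 ∧ y = 2 * x) ∨
  (x = 12 * k + 5 ∧ y = 2 * x + 6 * k + 2)

theorem P6_range {k x y : ℤ} (hk : 0 ≤ k) (h : P6 k x y) : 0 ≤ x ∧ x < 12 * k + 6 := by
  unfold P6 at h; omega

theorem P6_col {k x y x' y' : ℤ} (hk : 0 ≤ k) (h : P6 k x y) (h' : P6 k x' y')
    (hd : 12 * k + 6 ∣ y - y') : x = x' := by
  obtain ⟨q, hq⟩ := hd
  have hb : -(3 * (12 * k + 6)) < y - y' ∧ y - y' < 3 * (12 * k + 6) := by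
    have e1 : 0 ≤ y ∧ y < 3 * (12 * k + 6) := by unfold P6 at h; omega
    have e2 : 0 ≤ y' ∧ y' < 3 * (12 * k + 6) := by unfold P6 at h'; omega
    omega
  have q1 : -3 < q := by by_contra hc; push Not at hc; nlinarith [hb.1]
  have q2 : q < 3 := by by_contra hc; push Not at hc; nlinarith [hb.2]
  unfold P6 at h h'
  interval_cases q <;>
  · rcases h with h | h | h | h | h | h | h | h <;>
    rcases h' with h' | h' | h' | h' | h' | h' | h' | h' <;> omega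

theorem P6_sum {k x y x' y' : ℤ} (hk : 0 ≤ k) (h : P6 k x y) (h' : P6 k x' y')
    (hd : 12 * k + 6 ∣ (x + y) - (x' + y')) : x = x' := by
  obtain ⟨q, hq⟩ := hd
  have hb : -(4 * (12 * k + 6)) < (x + y) - (x' + y') ∧
      (x + y) - (x' + y') < 4 * (12 * k + 6) := by
    have e1 : 0 ≤ x + y ∧ x + y < 4 * (12 * k + 6) := by unfold P6 at h; omega
    have e2 : 0 ≤ x' + y' ∧ x' + y' < 4 * (12 * k + 6) := by unfold P6 at h'; omega
    omega
  have q1 : -4 < q := by by_contra hc; push Not at hc; nlinarith [hb.1]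
  have q2 : q < 4 := by by_contra hc; push Not at hc; nlinarith [hb.2]
  unfold P6 at h h'
  interval_cases q <;>
  · rcases h with h | h | h | h | h | h | h | h <;>
    rcases h' with h' | h' | h' | h' | h' | h' | h' | h' <;> omega

theorem P6_diff {k x y x' y' : ℤ} (hk : 0 ≤ k) (h : P6 k x y) (h' : P6 k x' y')
    (hd : 12 * k + 6 ∣ (x - y) - (x' - y')) : x = x' := by
  obtain ⟨q, hq⟩ := hd
  have hb : -(2 * (12 * k + 6)) < (x - y) - (x' - y') ∧
      (x - y) - (x' - y') < 2 * (12 * k + 6) := by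
    have e1 : 0 ≤ y - x ∧ y - x < 2 * (12 * k + 6) := by unfold P6 at h; omega
    have e2 : 0 ≤ y' - x' ∧ y' - x' < 2 * (12 * k + 6) := by unfold P6 at h'; omega
    omega
  have q1 : -2 < q := by by_contra hc; push Not at hc; nlinarith [hb.1]
  have q2 : q < 2 := by by_contra hc; push Not at hc; nlinarith [hb.2]
  unfold P6 at h h'
  interval_cases q <;>
  · rcases h with h | h | h | h | h | h | h | h <;>
    rcases h' with h' | h' | h' | h' | h' | h' | h' | h' <;> omega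

/-! ### Construction for `n = 12 k`, `k ≥ 2` -/

/-- the placement on the board of side `12 k` -/
def P12 (k x y : ℤ) : Prop :=
  (x = 0 ∧ y = 6 * k - 1) ∨
  (1 ≤ x ∧ x ≤ k - 2 ∧ y = 2 * x) ∨
  (x = k - 1 ∧ y = 2 * x + 6 * k - 1) ∨
  (k ≤ x ∧ x ≤ 3 * k - 2 ∧ y = 2 * x + 1) ∨
  ((x = 3 * k ∨ x = 4 * k - 1 ∨ x = 6 * k ∨ x = 7 * k - 1) ∧ y = 2 * x + 6 * k) ∨
  (3 * k + 1 ≤ x ∧ x ≤ 7 * k - 2 ∧ x ≠ 4 * k - 1 ∧ x ≠ 6 * k ∧ y = 2 * x - 1) ∨
  (7 * k + 1 ≤ x ∧ x ≤ 9 * k ∧ y = 2 * x - 2) ∨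
  (9 * k + 1 ≤ x ∧ x ≤ 12 * k - 1 ∧ x ≠ 10 * k - 1 ∧ y = 2 * x) ∨
  (x = 10 * k - 1 ∧ y = 2 * x + 6 * k - 1)

theorem P12_range {k x y : ℤ} (hk : 2 ≤ k) (h : P12 k x y) : 0 ≤ x ∧ x < 12 * k := by
  unfold P12 at h; omega

theorem P12_col {k x y x' y' : ℤ} (hk : 2 ≤ k) (h : P12 k x y) (h' : P12 k x' y')
    (hd : 12 * k ∣ y - y') : x = x' := by
  obtain ⟨q, hq⟩ := hd
  have hb : -(3 * (12 * k)) < y - y' ∧ y - y' < 3 * (12 * k) := by
    have e1 : 0 ≤ y ∧ y < 3 * (12 * k) := by unfold P12 at h; omega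
    have e2 : 0 ≤ y' ∧ y' < 3 * (12 * k) := by unfold P12 at h'; omega
    omega
  have q1 : -3 < q := by by_contra hc; push Not at hc; nlinarith [hb.1]
  have q2 : q < 3 := by by_contra hc; push Not at hc; nlinarith [hb.2]
  unfold P12 at h h'
  interval_cases q <;>
  · rcases h with h | h | h | h | h | h | h | h | h <;>
    rcases h' with h' | h' | h' | h' | h' | h' | h' | h' | h' <;> omega

theorem P12_sum {k x y x' y' : ℤ} (hk : 2 ≤ k) (h : P12 k x y) (h' : P12 k x' y')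
    (hd : 12 * k ∣ (x + y) - (x' + y')) : x = x' := by
  obtain ⟨q, hq⟩ := hd
  have hb : -(4 * (12 * k)) < (x + y) - (x' + y') ∧
      (x + y) - (x' + y') < 4 * (12 * k) := by
    have e1 : 0 ≤ x + y ∧ x + y < 4 * (12 * k) := by unfold P12 at h; omega
    have e2 : 0 ≤ x' + y' ∧ x' + y' < 4 * (12 * k) := by unfold P12 at h'; omega
    omega
  have q1 : -4 < q := by by_contra hc; push Not at hc; nlinarith [hb.1]
  have q2 : q < 4 := by by_contra hc; push Not at hc; nlinarith [hb.2]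
  unfold P12 at h h'
  interval_cases q <;>
  · rcases h with h | h | h | h | h | h | h | h | h <;>
    rcases h' with h' | h' | h' | h' | h' | h' | h' | h' | h' <;> omega

theorem P12_diff {k x y x' y' : ℤ} (hk : 2 ≤ k) (h : P12 k x y) (h' : P12 k x' y')
    (hd : 12 * k ∣ (x - y) - (x' - y')) : x = x' := by
  obtain ⟨q, hq⟩ := hd
  have hb : -(2 * (12 * k)) < (x - y) - (x' - y') ∧
      (x - y) - (x' - y') < 2 * (12 * k) := by
    have e1 : 0 ≤ y - x ∧ y - x < 2 * (12 * k) := by unfold P12 at h; omega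
    have e2 : 0 ≤ y' - x' ∧ y' - x' < 2 * (12 * k) := by unfold P12 at h'; omega
    omega
  have q1 : -2 < q := by by_contra hc; push Not at hc; nlinarith [hb.1]
  have q2 : q < 2 := by by_contra hc; push Not at hc; nlinarith [hb.2]
  unfold P12 at h h'
  interval_cases q <;>
  · rcases h with h | h | h | h | h | h | h | h | h <;>
    rcases h' with h' | h' | h' | h' | h' | h' | h' | h' | h' <;> omega

end Pool.Agent.H241R2.Queens
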