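import Mathlib
import Pool.Agent.H241R2.QueensCon

set_option autoImplicit false
set_option maxHeartbeats 4000000

namespace Pool.Agent.H241R2.Queens

/-- from a column function on the rows `0, …, n - 1` outside two rows to a placement -/
theorem exists_placement (n : ℕ) (hn : 2 ≤ n) (r1 r2 : ℕ) (h1 : r1 < n) (h2 : r2 < n)
    (h12 : r1 ≠ r2) (f : ℕ → ℤ)
    (hcol : ∀ x x' : ℕ, x < n → x' < n → x ≠ r1 → x ≠ r2 → x' ≠ r1 → x' ≠ r2 →
      (n : ℤ) ∣ f x - f x' → x = x')
    (hsum : ∀ x x' : ℕ, x < n → x' < n → x ≠ r1 → x ≠ r2 → x' ≠ r1 → x' ≠ r2 →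
      (n : ℤ) ∣ (x + f x) - (x' + f x') → x = x')
    (hdiff : ∀ x x' : ℕ, x < n → x' < n → x ≠ r1 → x ≠ r2 → x' ≠ r1 → x' ≠ r2 →
      (n : ℤ) ∣ (x - f x) - (x' - f x') → x = x') :
    ∃ S : Finset (ZMod n × ZMod n), S.card = n - 2 ∧ NA n S := by
  classical
  have hne : NeZero n := ⟨by omega⟩
  let D : Finset ℕ := ((Finset.range n).erase r1).erase r2
  have hD : ∀ x ∈ D, x < n ∧ x ≠ r1 ∧ x ≠ r2 := by
    intro x hx
    simp only [D, Finset.mem_erase, Finset.mem_range] at hx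
    exact ⟨hx.2.2, hx.2.1, hx.1⟩
  have hDc : D.card = n - 2 := by
    rw [Finset.card_erase_of_mem, Finset.card_erase_of_mem, Finset.card_range]
    · omega
    · exact Finset.mem_range.2 h1
    · rw [Finset.mem_erase, Finset.mem_range]; exact ⟨h12.symm, h2⟩
  let F : ℕ → ZMod n × ZMod n := fun x => (((x : ℤ) : ZMod n), ((f x : ℤ) : ZMod n))
  have key : ∀ a b : ℤ, (a : ZMod n) = (b : ZMod n) → (n : ℤ) ∣ a - b := by
    intro a b h
    exact (ZMod.intCast_eq_intCast_iff_dvd_sub b a n).1 h.symm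
  have hrow : ∀ x ∈ D, ∀ x' ∈ D, ((x : ℤ) : ZMod n) = ((x' : ℤ) : ZMod n) → x = x' := by
    intro x hx x' hx' h
    have hd := key _ _ h
    have e1 := (hD x hx).1
    have e2 := (hD x' hx').1
    obtain ⟨q, hq⟩ := hd
    have q1 : -1 < q := by by_contra hc; push Not at hc; nlinarith
    have q2 : q < 1 := by by_contra hc; push Not at hc; nlinarith
    have : q = 0 := by omega
    subst this
    omega
  have hinj : Set.InjOn F D := by
    intro x hx x' hx' h
    exact hrow x hx x' hx' (congrArg Prod.fst h)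
  refine ⟨D.image F, by rw [Finset.card_image_of_injOn hinj, hDc], ?_⟩
  intro p hp q hq hpq
  obtain ⟨x, hx, rfl⟩ := Finset.mem_image.1 hp
  obtain ⟨x', hx', rfl⟩ := Finset.mem_image.1 hq
  have hxx : x ≠ x' := fun h => hpq (by rw [h])
  obtain ⟨a1, a2, a3⟩ := hD x hx
  obtain ⟨b1, b2, b3⟩ := hD x' hx'
  refine ⟨fun h => hxx (hrow x hx x' hx' h), fun h => hxx ?_, fun h => hxx ?_, fun h => hxx ?_⟩
  · exact hcol x x' a1 b1 a2 a3 b2 b3 (key _ _ h)
  · refine hsum x x' a1 b1 a2 a3 b2 b3 (key _ _ ?_)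
    push_cast
    simpa [F] using h
  · refine hdiff x x' a1 b1 a2 a3 b2 b3 (key _ _ ?_)
    push_cast
    simpa [F] using h

/-- the column function for `12 k + 6` -/
def f6 (k x : ℤ) : ℤ :=
  if x < k then 2 * x else if x < 3 * k then 2 * x + 1 else if x = 3 * k + 1 then 2 * x + 6 * k + 1
  else if x = 6 * k + 2 then 2 * x + 6 * k + 3 else if x ≤ 7 * k + 2 then 2 * x - 1
  else if x ≤ 9 * k + 3 then 2 * x - 2 else if x ≤ 12 * k + 4 then 2 * x else 2 * x + 6 * k + 2

theorem f6_spec (k x : ℤ) (hk : 0 ≤ k) (h0 : 0 ≤ x) (h1 : x < 12 * k + 6) (h2 : x ≠ 3 * k)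
    (h3 : x ≠ 7 * k + 3) : P6 k x (f6 k x) := by
  unfold P6 f6
  split_ifs <;> omega

/-- the column function for `12 k` -/
def f12 (k x : ℤ) : ℤ :=
  if x = 0 then 6 * k - 1 else if x ≤ k - 2 then 2 * x else if x = k - 1 then 2 * x + 6 * k - 1
  else if x ≤ 3 * k - 2 then 2 * x + 1
  else if x = 3 * k ∨ x = 4 * k - 1 ∨ x = 6 * k ∨ x = 7 * k - 1 then 2 * x + 6 * k
  else if x ≤ 7 * k - 2 then 2 * x - 1 else if x ≤ 9 * k then 2 * x - 2
  else if x = 10 * k - 1 then 2 * x + 6 * k - 1 else 2 * x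

theorem f12_spec (k x : ℤ) (hk : 2 ≤ k) (h0 : 0 ≤ x) (h1 : x < 12 * k) (h2 : x ≠ 3 * k - 1)
    (h3 : x ≠ 7 * k) : P12 k x (f12 k x) := by
  unfold P12 f12
  split_ifs <;> omega

theorem lower6 (k : ℕ) : ∃ S : Finset (ZMod (12 * k + 6) × ZMod (12 * k + 6)),
    S.card = 12 * k + 6 - 2 ∧ NA (12 * k + 6) S := by
  have hk : (0 : ℤ) ≤ (k : ℤ) := by positivity
  refine exists_placement (12 * k + 6) (by omega) (3 * k) (7 * k + 3) (by omega) (by omega)
    (by omega) (fun x => f6 k x) ?_ ?_ ?_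
  · intro x x' h1 h2 h3 h4 h5 h6 hd
    have := P6_col hk (f6_spec k x hk (by omega) (by omega) (by omega) (by omega))
      (f6_spec k x' hk (by omega) (by omega) (by omega) (by omega)) (by push_cast at hd; exact hd)
    omega
  · intro x x' h1 h2 h3 h4 h5 h6 hd
    have := P6_sum hk (f6_spec k x hk (by omega) (by omega) (by omega) (by omega))
      (f6_spec k x' hk (by omega) (by omega) (by omega) (by omega)) (by push_cast at hd; exact hd)
    omega
  · intro x x' h1 h2 h3 h4 h5 h6 hd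
    have := P6_diff hk (f6_spec k x hk (by omega) (by omega) (by omega) (by omega))
      (f6_spec k x' hk (by omega) (by omega) (by omega) (by omega)) (by push_cast at hd; exact hd)
    omega

theorem lower12 (k : ℕ) (h2k : 2 ≤ k) : ∃ S : Finset (ZMod (12 * k) × ZMod (12 * k)),
    S.card = 12 * k - 2 ∧ NA (12 * k) S := by
  have hk : (2 : ℤ) ≤ (k : ℤ) := by exact_mod_cast h2k
  refine exists_placement (12 * k) (by omega) (3 * k - 1) (7 * k) (by omega) (by omega)
    (by omega) (fun x => f12 k x) ?_ ?_ ?_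
  · intro x x' h1 h2 h3 h4 h5 h6 hd
    have := P12_col hk (f12_spec k x hk (by omega) (by omega) (by omega) (by omega))
      (f12_spec k x' hk (by omega) (by omega) (by omega) (by omega)) (by push_cast at hd; exact hd)
    omega
  · intro x x' h1 h2 h3 h4 h5 h6 hd
    have := P12_sum hk (f12_spec k x hk (by omega) (by omega) (by omega) (by omega))
      (f12_spec k x' hk (by omega) (by omega) (by omega) (by omega)) (by push_cast at hd; exact hd)
    omega
  · intro x x' h1 h2 h3 h4 h5 h6 hd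
    have := P12_diff hk (f12_spec k x hk (by omega) (by omega) (by omega) (by omega))
      (f12_spec k x' hk (by omega) (by omega) (by omega) (by omega)) (by push_cast at hd; exact hd)
    omega

def S12 : Finset (ZMod 12 × ZMod 12) :=
  {(0, 1), (1, 10), (2, 4), (3, 7), (4, 0), (6, 11), (7, 2), (8, 6), (9, 3), (10, 9)}

theorem lower12_one : ∃ S : Finset (ZMod 12 × ZMod 12), S.card = 12 - 2 ∧ NA 12 S := by
  refine ⟨S12, by decide +kernel, ?_⟩
  unfold NA
  decide +kernel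

theorem lower (n : ℕ) (hn : 0 < n) (h6 : 6 ∣ n) :
    ∃ S : Finset (ZMod n × ZMod n), S.card = n - 2 ∧ NA n S := by
  obtain ⟨m, rfl⟩ := h6
  rcases Nat.even_or_odd' m with ⟨k, rfl | rfl⟩
  · have e : 6 * (2 * k) = 12 * k := by ring
    rw [e]
    rcases Nat.lt_or_ge k 2 with h | h
    · have : k = 1 := by omega
      subst this
      exact lower12_one
    · exact lower12 k h
  · have e : 6 * (2 * k + 1) = 12 * k + 6 := by ring
    rw [e]
    exact lower6 k

theorem isGreatest (n : ℕ) (hn : 0 < n) (h6 : 6 ∣ n) :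
    IsGreatest
        {k : ℕ | ∃ S : Finset (ZMod n × ZMod n), S.card = k ∧
          ∀ p ∈ S, ∀ q ∈ S, p ≠ q →
            p.1 ≠ q.1 ∧ p.2 ≠ q.2 ∧ p.1 + p.2 ≠ q.1 + q.2 ∧ p.1 - p.2 ≠ q.1 - q.2}
        (n - 2) := by
  constructor
  · exact lower n hn h6
  · rintro k ⟨S, rfl, hS⟩
    obtain ⟨m, rfl⟩ := h6
    obtain ⟨m, rfl⟩ : ∃ m', m = m' + 1 := ⟨m - 1, by omega⟩
    exact upper m S hS

end Pool.Agent.H241R2.Queens
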