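import Pool.Agent.H306R2.RZ.Defs2
import Pool.Agent.H306R2.RZ.Stubs2
import Pool.Agent.H241R2.RZ2_C3

set_option autoImplicit false

/-!
# Task C5 of project RZ: positivity on `(0,1)` (helper241)
-/

namespace Pool.Agent.H241R2.RZC5

open Finset Filter Topology MeasureTheory
open Pool.Agent.H306R2.RZ

noncomputable section

/-- the completed function -/
def Lam (d : ℕ) (σ : ℝ) : ℝ := ∫ y in Set.Ioi (0 : ℝ), th d y * y ^ (σ / 2 - 1)

theorem Lam_symm (d : ℕ) (h2 : ∀ y : ℝ, 0 < y → th d (1 / y) = Real.sqrt y * th d y) (σ : ℝ) :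
    Lam d σ = Lam d (1 - σ) := by
  have h := integral_comp_rpow_Ioi (fun y : ℝ => th d y * y ^ (σ / 2 - 1)) (p := -1) (by norm_num)
  rw [Lam, ← h, Lam]
  refine setIntegral_congr_fun measurableSet_Ioi fun x hx => ?_
  have hx0 : (0 : ℝ) < x := hx
  simp only [smul_eq_mul]
  have h3 := h2 x hx0
  rw [one_div] at h3
  rw [Real.rpow_neg_one, h3, Real.sqrt_eq_rpow, abs_neg, abs_one, one_mul,
    Real.inv_rpow hx0.le, ← Real.rpow_neg hx0.le]
  rw [show x ^ ((-1 : ℝ) - 1) * (x ^ (1 / 2 : ℝ) * th d x * x ^ (-(σ / 2 - 1))) =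
    th d x * (x ^ ((-1 : ℝ) - 1) * x ^ (1 / 2 : ℝ) * x ^ (-(σ / 2 - 1))) by ring,
    ← Real.rpow_add hx0, ← Real.rpow_add hx0]
  congr 2
  ring

theorem gm_pos {σ : ℝ} (hσ : 0 < σ) : 0 < gm σ :=
  mul_pos (Real.rpow_pos_of_pos Real.pi_pos _) (Real.Gamma_pos_of_pos (by positivity))

theorem den_pos {d : ℕ} (hd : 0 < d) {σ : ℝ} (hσ : 0 < σ) : 0 < (8 * (d : ℝ)) ^ (σ / 2) * gm σ := by
  have : (0 : ℝ) < d := by exact_mod_cast hd
  exact mul_pos (Real.rpow_pos_of_pos (by positivity) _) (gm_pos hσ)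

theorem LLd_eq (d : ℕ) (σ : ℝ) : LLd d σ = Lam d σ / ((8 * (d : ℝ)) ^ (σ / 2) * gm σ) := rfl

theorem at_two {N : ℕ} [NeZero N] (χ : DirichletCharacter ℂ N) :
    0 < (DirichletCharacter.LFunction χ ((2 : ℝ) : ℂ)).re := by
  have hs : 1 < (((2 : ℝ) : ℂ)).re := by norm_num
  rw [DirichletCharacter.LFunction_eq_LSeries χ hs]
  set a : ℕ → ℂ := LSeries.term (fun n => χ (n : ZMod N)) ((2 : ℝ) : ℂ) with ha
  have hsum : Summable a := DirichletCharacter.LSeriesSummable_of_one_lt_re χ hs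
  have h1 : a 1 = 1 := by
    rw [ha, LSeries.term_of_ne_zero one_ne_zero]
    simp
  have hle : ∀ n : ℕ, ‖a n‖ ≤ 1 / (n : ℝ) ^ 2 := by
    intro n
    rcases eq_or_ne n 0 with rfl | hn
    · simp [ha]
    · rw [ha, LSeries.norm_term_eq, if_neg hn]
      have h3 : ‖χ (n : ZMod N)‖ ≤ 1 := χ.norm_le_one _
      have h4 : (n : ℝ) ^ ((((2 : ℝ) : ℂ)).re) = (n : ℝ) ^ 2 := by
        rw [Complex.ofReal_re]
        exact_mod_cast Real.rpow_natCast (n : ℝ) 2
      rw [h4]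
      exact div_le_div_of_nonneg_right h3 (by positivity)
  have hz := hasSum_zeta_two
  have h5 : LSeries (fun n => χ (n : ZMod N)) ((2 : ℝ) : ℂ) = a 1 + ∑' n, if n = 1 then 0 else a n :=
    hsum.tsum_eq_add_tsum_ite 1
  have h6 : (Real.pi ^ 2 / 6 : ℝ) = 1 + ∑' n : ℕ, if n = 1 then 0 else 1 / (n : ℝ) ^ 2 := by
    rw [← hz.tsum_eq, hz.summable.tsum_eq_add_tsum_ite 1]
    simp
  have hs1 : Summable (fun n : ℕ => if n = 1 then (0 : ℝ) else 1 / (n : ℝ) ^ 2) := by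
    refine Summable.of_nonneg_of_le (fun n => ?_) (fun n => ?_) hz.summable
    · split_ifs
      · exact le_rfl
      · positivity
    · split_ifs
      · positivity
      · exact le_rfl
  have h7 : ‖∑' n, if n = 1 then 0 else a n‖ ≤ ∑' n : ℕ, if n = 1 then 0 else 1 / (n : ℝ) ^ 2 := by
    refine tsum_of_norm_bounded hs1.hasSum fun n => ?_
    split_ifs
    · simp
    · exact hle n
  have h8 : Real.pi ^ 2 < 12 := by
    have := Real.pi_lt_d2
    have := Real.pi_pos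
    nlinarith
  rw [h5, h1, Complex.add_re, Complex.one_re]
  have h9 := (abs_le.1 (Complex.abs_re_le_norm (∑' n, if n = 1 then 0 else a n))).1
  linarith

theorem C5_of (d : ℕ) (hd : Odd d) (hs : Squarefree d)
    (hC2 : ∀ y : ℝ, 0 < y → th d (1 / y) = Real.sqrt y * th d y)
    (hC4 : ∀ χ : DirichletCharacter ℂ (8 * d),
      (∀ n : ℕ, n ≠ 0 → χ (n : ZMod (8 * d)) = ((js (8 * (d : ℤ)) n : ℝ) : ℂ)) → ∀ σ : ℝ, 0 < σ →
      haveI : NeZero (8 * d) := ⟨by have := hd.pos; omega⟩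
      DirichletCharacter.LFunction χ (σ : ℂ) = ((LLd d σ : ℝ) : ℂ))
    (L : ℝ) (hL : 0 < L)
    (h : ∀ x : ℝ, 0 ≤ x → x ≤ L / 2 → LLd d (1 / 2 + x / L) ≠ 0) :
    ∀ σ : ℝ, 0 < σ → σ < 1 → 0 < LLd d σ := by
  have : NeZero (8 * d) := ⟨by have := hd.pos; omega⟩
  obtain ⟨χ, -, hχ1, hχ⟩ := RZC3.C3 d hd hs
  have hval : ∀ σ : ℝ, 0 < σ → DirichletCharacter.LFunction χ (σ : ℂ) = ((LLd d σ : ℝ) : ℂ) :=
    fun σ hσ => hC4 χ hχ σ hσ
  have hre : ∀ σ : ℝ, 0 < σ → (DirichletCharacter.LFunction χ (σ : ℂ)).re = LLd d σ := by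
    intro σ hσ
    rw [hval σ hσ, Complex.ofReal_re]
  have hcont : Continuous (fun σ : ℝ => (DirichletCharacter.LFunction χ (σ : ℂ)).re) :=
    Complex.continuous_re.comp ((DirichletCharacter.differentiable_LFunction hχ1).continuous.comp
      Complex.continuous_ofReal)
  have hne : ∀ σ : ℝ, 1 / 2 ≤ σ → LLd d σ ≠ 0 := by
    intro σ hσ
    rcases le_total σ 1 with h1 | h1
    · have h2 := h ((σ - 1 / 2) * L) (mul_nonneg (by linarith) hL.le) (by nlinarith)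
      rwa [mul_div_assoc, div_self hL.ne', mul_one, add_sub_cancel] at h2
    · intro h0
      have h3 := DirichletCharacter.LFunction_ne_zero_of_one_le_re χ (s := (σ : ℂ)) (Or.inl hχ1)
        (by simpa using h1)
      apply h3
      rw [hval σ (by linarith), h0, Complex.ofReal_zero]
  have hpos : ∀ σ : ℝ, 1 / 2 ≤ σ → σ ≤ 2 → 0 < LLd d σ := by
    intro σ h1 h2
    by_contra hcon
    have h3 : (DirichletCharacter.LFunction χ (σ : ℂ)).re ≤ 0 := by
      rw [hre σ (by linarith)]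
      exact not_lt.1 hcon
    have h4 := intermediate_value_Icc h2 hcont.continuousOn
    obtain ⟨c, hc1, hc2⟩ := h4 ⟨h3, (at_two χ).le⟩
    have h5 : 1 / 2 ≤ c := h1.trans hc1.1
    have h6 : (DirichletCharacter.LFunction χ (c : ℂ)).re = 0 := hc2
    rw [hre c (by linarith)] at h6
    exact hne c h5 h6
  intro σ h0 h1
  rcases le_total (1 / 2) σ with h2 | h2
  · exact hpos σ h2 (by linarith)
  · have h3 := hpos (1 - σ) (by linarith) (by linarith)
    rw [LLd_eq] at h3 ⊢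
    have h4 := (div_pos_iff_of_pos_right (den_pos hd.pos (show 0 < 1 - σ by linarith))).1 h3
    rw [Lam_symm d hC2 σ]
    exact div_pos h4 (den_pos hd.pos h0)

theorem C5 (d : ℕ) (hd : Odd d) (hs : Squarefree d) (L : ℝ) (hL : 0 < L)
    (h : ∀ x : ℝ, 0 ≤ x → x ≤ L / 2 → LLd d (1 / 2 + x / L) ≠ 0) :
    ∀ σ : ℝ, 0 < σ → σ < 1 → 0 < LLd d σ :=
  C5_of d hd hs (fun y hy => Stubs2.C2 d hd hs y hy)
    (fun χ hχ σ hσ => Stubs2.C4 d hd hs χ hχ σ hσ) L hL h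

end

end Pool.Agent.H241R2.RZC5
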