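import Mathlib

set_option autoImplicit false

namespace Pool.Agent.H241R2.TF

/-- The arcs attached to a depth function `d`: return arcs (to an earlier position of the same
parity all of whose followers up to `x` are deeper) and forward arcs (to a later position of the
other parity which is a running minimum). -/
def Arc (d : ℕ → ℕ) (x y : ℕ) : Prop :=
  (y ≤ x ∧ x % 2 = y % 2 ∧ ∀ k, y < k → k ≤ x → d y < d k) ∨
  (x < y ∧ x % 2 ≠ y % 2 ∧ ∀ k, x < k → k ≤ y → d y ≤ d k)

lemma arc_entry {d : ℕ → ℕ} {u z w : ℕ} (hz : u < z) (hT : ∀ k, u < k → k ≤ z → d u < d k)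
    (h : Arc d w z) : u ≤ w ∧ ∀ k, u < k → k ≤ w → d u < d k := by
  rcases h with ⟨h1, _, h2⟩ | ⟨h1, _, h2⟩
  · refine ⟨by omega, fun k hk hkw => ?_⟩
    by_cases hkz : k ≤ z
    · exact hT k hk hkz
    · exact lt_trans (hT z hz le_rfl) (h2 k (by omega) hkw)
  · have huw : u ≤ w := by
      by_contra hc
      have h3 := h2 u (by omega) (by omega)
      have h4 := hT z hz le_rfl
      omega
    exact ⟨huw, fun k hk hkw => hT k hk (by omega)⟩

lemma cycle_odd {N : ℕ} (d : ℕ → ℕ) (c : Equiv.Perm (Fin N)) (hc : c.IsCycle)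
    (h : ∀ x ∈ c.support, Arc d (x : ℕ) (c x : ℕ)) : Odd c.support.card := by
  classical
  -- the target of a return arc is the minimum
  have key : ∀ x ∈ c.support, (c x : ℕ) ≤ x → ∀ z ∈ c.support, (c x : ℕ) ≤ z := by
    intro x hx hle z hz
    have hTx : (c x : ℕ) ≤ x ∧ ∀ k, (c x : ℕ) < k → k ≤ x → d (c x) < d k := by
      rcases h x hx with ⟨h1, _, h2⟩ | ⟨h1, _, _⟩
      · exact ⟨h1, h2⟩
      · omega
    have hind : ∀ n : ℕ, ((c⁻¹ ^ n) (c x)) ∈ c.support ∧
        ((c x : ℕ) ≤ ((c⁻¹ ^ n) (c x) : Fin N) ∧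
          ∀ k, (c x : ℕ) < k → k ≤ ((c⁻¹ ^ n) (c x) : Fin N) → d (c x) < d k) := by
      intro n
      induction n with
      | zero =>
        refine ⟨by simpa using hx, by simp, ?_⟩
        intro k hk hk2
        simp at hk2
        omega
      | succ n ih =>
        obtain ⟨i1, i2, i3⟩ := ih
        set w := (c⁻¹ ^ n) (c x) with hw
        have hsucc : (c⁻¹ ^ (n + 1)) (c x) = c⁻¹ w := by
          rw [pow_succ', Equiv.Perm.mul_apply]
        rw [hsucc]
        have hmem : c⁻¹ w ∈ c.support := by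
          rw [← Equiv.Perm.apply_mem_support]
          simpa using i1
        refine ⟨hmem, ?_⟩
        by_cases hwu : w = c x
        · rw [hwu]
          simpa using hTx
        · have harc := h _ hmem
          rw [show c (c⁻¹ w) = w by simp] at harc
          have hlt : (c x : ℕ) < w := by
            rcases lt_or_eq_of_le i2 with h5 | h5
            · exact h5
            · exact absurd (Fin.ext h5.symm) hwu
          exact arc_entry hlt i3 harc
    have hcx : c⁻¹ (c x) ≠ c x := by
      have := Equiv.Perm.mem_support.mp hx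
      rw [show c⁻¹ (c x) = x by simp]
      exact fun h' => this h'.symm
    have hcz : c⁻¹ z ≠ z := by
      have := Equiv.Perm.mem_support.mp hz
      intro h'
      apply this
      rw [Equiv.Perm.inv_eq_iff_eq] at h'
      exact h'.symm
    obtain ⟨n, hn⟩ := hc.inv.exists_pow_eq hcx hcz
    have := (hind n).2.1
    rw [hn] at this
    exact this
  have hne : c.support.Nonempty := by
    obtain ⟨x, hx, _⟩ := hc
    exact ⟨x, Equiv.Perm.mem_support.mpr hx⟩
  have hR : (c.support.filter (fun x => (c x : ℕ) ≤ x)).card = 1 := by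
    apply le_antisymm
    · rw [Finset.card_le_one]
      intro x hx y hy
      rw [Finset.mem_filter] at hx hy
      have h1 := key x hx.1 hx.2 (c y) (Equiv.Perm.apply_mem_support.mpr hy.1)
      have h2 := key y hy.1 hy.2 (c x) (Equiv.Perm.apply_mem_support.mpr hx.1)
      exact c.injective (Fin.ext (le_antisymm h1 h2))
    · rw [Nat.one_le_iff_ne_zero, Finset.card_ne_zero]
      refine ⟨c.support.max' hne, ?_⟩
      rw [Finset.mem_filter]
      refine ⟨Finset.max'_mem _ _, ?_⟩
      have hm : c (c.support.max' hne) ≤ c.support.max' hne :=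
        Finset.le_max' _ _ (Equiv.Perm.apply_mem_support.mpr (Finset.max'_mem _ _))
      exact hm
  have hsum : ∑ x ∈ c.support, (((c x : Fin N) : ℕ) : ZMod 2) = ∑ x ∈ c.support, ((x : ℕ) : ZMod 2) := by
    refine Finset.sum_bij (fun x _ => c x) (fun x hx => Equiv.Perm.apply_mem_support.mpr hx)
      (fun x _ y _ hxy => c.injective hxy) (fun y hy => ?_) (fun x _ => rfl)
    refine ⟨c⁻¹ y, ?_, by simp⟩
    rw [← Equiv.Perm.apply_mem_support]
    simpa using hy
  have hstep : ∀ x ∈ c.support, (((c x : Fin N) : ℕ) : ZMod 2)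
      = ((x : ℕ) : ZMod 2) + (if (c x : ℕ) ≤ x then 0 else 1) := by
    intro x hx
    rcases h x hx with ⟨h1, h2, _⟩ | ⟨h1, h2, _⟩
    · rw [if_pos h1, add_zero]
      exact (ZMod.natCast_eq_natCast_iff' _ _ _).mpr h2.symm
    · rw [if_neg (by omega)]
      have : ((x : ℕ) : ZMod 2) + 1 = (((x : ℕ) + 1 : ℕ) : ZMod 2) := by push_cast; ring
      rw [this]
      exact (ZMod.natCast_eq_natCast_iff' _ _ _).mpr (by omega)
  rw [Finset.sum_congr rfl hstep, Finset.sum_add_distrib] at hsum
  have hz : ∑ x ∈ c.support, (if (c x : ℕ) ≤ x then (0 : ZMod 2) else 1) = 0 := by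
    have := hsum
    rw [add_eq_left] at this
    exact this
  have hcount : ∑ x ∈ c.support, (if (c x : ℕ) ≤ x then (0 : ZMod 2) else 1)
      = (((c.support.filter (fun x => ¬ (c x : ℕ) ≤ x)).card : ℕ) : ZMod 2) := by
    rw [Finset.card_filter]
    push_cast
    refine Finset.sum_congr rfl (fun x _ => ?_)
    by_cases hx : (c x : ℕ) ≤ x <;> simp [hx]
  rw [hcount, ZMod.natCast_eq_zero_iff] at hz
  have htot := Finset.card_filter_add_card_filter_not (s := c.support) (fun x => (c x : ℕ) ≤ x)
  rw [hR] at htot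
  rw [← htot]
  obtain ⟨m, hm⟩ := hz
  exact ⟨m, by omega⟩

/-- Every permutation all of whose steps are arcs is even. -/
lemma sign_one {N : ℕ} (d : ℕ → ℕ) (p : Equiv.Perm (Fin N))
    (h : ∀ x : Fin N, Arc d (x : ℕ) (p x : ℕ)) : Equiv.Perm.sign p = 1 := by
  classical
  rw [Equiv.Perm.sign_of_cycleType']
  apply Multiset.prod_eq_one
  intro u hu
  rw [Multiset.mem_map] at hu
  obtain ⟨n, hn, rfl⟩ := hu
  rw [Equiv.Perm.cycleType_def, Multiset.mem_map] at hn
  obtain ⟨c, hc, rfl⟩ := hn
  have hc' : c ∈ p.cycleFactorsFinset := hc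
  rw [Equiv.Perm.mem_cycleFactorsFinset_iff] at hc'
  have hodd : Odd c.support.card := by
    apply cycle_odd d c hc'.1
    intro x hx
    rw [hc'.2 x hx]
    exact h x
  simp only [Function.comp_apply]
  rw [hodd.neg_one_pow]
  simp

end Pool.Agent.H241R2.TF
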