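import Mathlib
import Pool.Agent.H241R2.TFArc

set_option autoImplicit false

namespace Pool.Agent.H241R2.TF

/-- A depth function on the positions `0, ..., m - 1` (`m` odd) with strict minimum `0` at the
start, such that every position has at least `a` (even positions) or `b` (odd positions) arcs to
other positions among `0, ..., s`. -/
structure Good (d : ℕ → ℕ) (m s a b : ℕ) : Prop where
  zero : d 0 = 0
  pos : ∀ k, 0 < k → k < m → 1 ≤ d k
  odd : m % 2 = 1
  lt : s < m
  needs : ∀ x, x < m → ∃ T : Finset ℕ, (∀ y ∈ T, y ≤ s ∧ y ≠ x ∧ Arc d x y) ∧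
    (if x % 2 = 0 then a else b) ≤ T.card

/-- Concatenation of three depth functions, the second one level deeper and the third one two
levels deeper. -/
def comb (d1 : ℕ → ℕ) (p : ℕ) (d2 : ℕ → ℕ) (q : ℕ) (d3 : ℕ → ℕ) : ℕ → ℕ := fun i =>
  if i < p then d1 i else if i < p + q then d2 (i - p) + 1 else d3 (i - (p + q)) + 2

lemma arc_shift {d e : ℕ → ℕ} {off len c x y : ℕ} (h : ∀ i, i < len → d (off + i) = e i + c)
    (hx : x < len) (hy : y < len) (ha : Arc e x y) : Arc d (off + x) (off + y) := by
  rcases ha with ⟨h1, h2, h3⟩ | ⟨h1, h2, h3⟩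
  · refine Or.inl ⟨by omega, by omega, fun k hk1 hk2 => ?_⟩
    have hk : off + (k - off) = k := by omega
    rw [h y hy, ← hk, h (k - off) (by omega)]
    have := h3 (k - off) (by omega) (by omega)
    omega
  · refine Or.inr ⟨by omega, by omega, fun k hk1 hk2 => ?_⟩
    have hk : off + (k - off) = k := by omega
    rw [h y hy, ← hk, h (k - off) (by omega)]
    have := h3 (k - off) (by omega) (by omega)
    omega

lemma good_comb {d1 d2 d3 : ℕ → ℕ} {p q r s a b : ℕ} (h1 : Good d1 p (p - 1) a b)
    (h2 : Good d2 q (q - 1) (b - 1) a) (h3 : Good d3 r s a (b - 1)) :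
    Good (comb d1 p d2 q d3) (p + q + r) (p + q + s) (a + 1) b := by
  classical
  have hp := h1.odd
  have hq := h2.odd
  have hr := h3.odd
  have e1 : ∀ i, i < p → comb d1 p d2 q d3 (0 + i) = d1 i + 0 := by
    intro i hi
    simp only [comb, zero_add, add_zero]
    rw [if_pos hi]
  have e2 : ∀ i, i < q → comb d1 p d2 q d3 (p + i) = d2 i + 1 := by
    intro i hi
    simp only [comb]
    rw [if_neg (by omega), if_pos (by omega)]
    congr 2
    omega
  have e3 : ∀ i, i < r → comb d1 p d2 q d3 ((p + q) + i) = d3 i + 2 := by
    intro i hi
    simp only [comb]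
    rw [if_neg (by omega), if_neg (by omega)]
    congr 2
    omega
  have hz : comb d1 p d2 q d3 0 = 0 := by
    have := e1 0 (by omega)
    simpa [h1.zero] using this
  have hpos : ∀ k, 0 < k → k < p + q + r → 1 ≤ comb d1 p d2 q d3 k := by
    intro k hk hk2
    by_cases c1 : k < p
    · have := e1 k c1
      rw [zero_add] at this
      rw [this]
      have := h1.pos k hk c1
      omega
    · by_cases c2 : k < p + q
      · have := e2 (k - p) (by omega)
        rw [show p + (k - p) = k by omega] at this
        omega
      · have := e3 (k - (p + q)) (by omega)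
        rw [show p + q + (k - (p + q)) = k by omega] at this
        omega
  have hpos2 : ∀ k, p < k → k < p + q + r → 2 ≤ comb d1 p d2 q d3 k := by
    intro k hk hk2
    by_cases c2 : k < p + q
    · have := e2 (k - p) (by omega)
      rw [show p + (k - p) = k by omega] at this
      have h5 := h2.pos (k - p) (by omega) (by omega)
      omega
    · have := e3 (k - (p + q)) (by omega)
      rw [show p + q + (k - (p + q)) = k by omega] at this
      omega
  have hdp : comb d1 p d2 q d3 p = 1 := by
    have := e2 0 (by omega)
    simpa [h2.zero] using this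
  have hdpq : comb d1 p d2 q d3 (p + q) = 2 := by
    have := e3 0 (by omega)
    simpa [h3.zero] using this
  refine ⟨hz, hpos, by omega, by have := h3.lt; omega, ?_⟩
  intro x hx
  by_cases c1 : x < p
  · obtain ⟨T, hT1, hT2⟩ := h1.needs x c1
    have hTarc : ∀ y ∈ T, y ≤ p + q + s ∧ y ≠ x ∧ Arc (comb d1 p d2 q d3) x y := by
      intro y hy
      obtain ⟨g1, g2, g3⟩ := hT1 y hy
      refine ⟨by omega, g2, ?_⟩
      have := arc_shift e1 c1 (by omega) g3
      simpa using this
    by_cases hpar : x % 2 = 0
    · refine ⟨insert p T, ?_, ?_⟩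
      · intro y hy
        rw [Finset.mem_insert] at hy
        rcases hy with rfl | hy
        · refine ⟨by omega, by omega, Or.inr ⟨c1, by omega, ?_⟩⟩
          intro k hk1 hk2
          rw [hdp]
          exact hpos k (by omega) (by omega)
        · exact hTarc y hy
      · rw [Finset.card_insert_of_notMem, if_pos hpar]
        · rw [if_pos hpar] at hT2
          omega
        · intro hmem
          have := (hT1 p hmem).1
          omega
    · refine ⟨T, hTarc, ?_⟩
      rw [if_neg hpar] at hT2 ⊢
      exact hT2
  · by_cases c2 : x < p + q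
    · obtain ⟨T, hT1, hT2⟩ := h2.needs (x - p) (by omega)
      have hTarc : ∀ y ∈ T.image (fun y => p + y),
          y ≤ p + q + s ∧ y ≠ x ∧ Arc (comb d1 p d2 q d3) x y := by
        intro y hy
        rw [Finset.mem_image] at hy
        obtain ⟨z, hz', rfl⟩ := hy
        obtain ⟨g1, g2, g3⟩ := hT1 z hz'
        refine ⟨by omega, by omega, ?_⟩
        have := arc_shift e2 (x := x - p) (by omega) (by omega) g3
        rw [show p + (x - p) = x by omega] at this
        exact this
      have hcard : (T.image (fun y => p + y)).card = T.card :=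
        Finset.card_image_of_injective _ (fun u v huv => by simpa using huv)
      by_cases hpar : x % 2 = 0
      · rw [if_neg (by omega)] at hT2
        refine ⟨insert 0 (T.image (fun y => p + y)), ?_, ?_⟩
        · intro y hy
          rw [Finset.mem_insert] at hy
          rcases hy with rfl | hy
          · refine ⟨by omega, by omega, Or.inl ⟨by omega, by omega, ?_⟩⟩
            intro k hk1 hk2
            rw [hz]
            have := hpos k hk1 (by omega)
            omega
          · exact hTarc y hy
        · rw [Finset.card_insert_of_notMem, if_pos hpar, hcard]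
          · omega
          · intro hmem
            rw [Finset.mem_image] at hmem
            obtain ⟨z, _, hz2⟩ := hmem
            omega
      · rw [if_pos (by omega)] at hT2
        refine ⟨insert (p + q) (T.image (fun y => p + y)), ?_, ?_⟩
        · intro y hy
          rw [Finset.mem_insert] at hy
          rcases hy with rfl | hy
          · refine ⟨by omega, by omega, Or.inr ⟨by omega, by omega, ?_⟩⟩
            intro k hk1 hk2
            rw [hdpq]
            exact hpos2 k (by omega) (by omega)
          · exact hTarc y hy
        · rw [Finset.card_insert_of_notMem, if_neg hpar, hcard]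
          · omega
          · intro hmem
            rw [Finset.mem_image] at hmem
            obtain ⟨z, hz1, hz2⟩ := hmem
            have := (hT1 z hz1).1
            omega
    · obtain ⟨T, hT1, hT2⟩ := h3.needs (x - (p + q)) (by omega)
      have hTarc : ∀ y ∈ T.image (fun y => (p + q) + y),
          y ≤ p + q + s ∧ y ≠ x ∧ Arc (comb d1 p d2 q d3) x y := by
        intro y hy
        rw [Finset.mem_image] at hy
        obtain ⟨z, hz', rfl⟩ := hy
        obtain ⟨g1, g2, g3⟩ := hT1 z hz'
        refine ⟨by omega, by omega, ?_⟩
        have := arc_shift e3 (x := x - (p + q)) (by omega) (by have := h3.lt; omega) g3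
        rw [show (p + q) + (x - (p + q)) = x by omega] at this
        exact this
      have hcard : (T.image (fun y => (p + q) + y)).card = T.card :=
        Finset.card_image_of_injective _ (fun u v huv => by simpa using huv)
      by_cases hpar : x % 2 = 0
      · rw [if_pos (by omega)] at hT2
        refine ⟨insert 0 (T.image (fun y => (p + q) + y)), ?_, ?_⟩
        · intro y hy
          rw [Finset.mem_insert] at hy
          rcases hy with rfl | hy
          · refine ⟨by omega, by omega, Or.inl ⟨by omega, by omega, ?_⟩⟩
            intro k hk1 hk2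
            rw [hz]
            have := hpos k hk1 (by omega)
            omega
          · exact hTarc y hy
        · rw [Finset.card_insert_of_notMem, if_pos hpar, hcard]
          · omega
          · intro hmem
            rw [Finset.mem_image] at hmem
            obtain ⟨z, _, hz2⟩ := hmem
            omega
      · rw [if_neg (by omega)] at hT2
        refine ⟨insert p (T.image (fun y => (p + q) + y)), ?_, ?_⟩
        · intro y hy
          rw [Finset.mem_insert] at hy
          rcases hy with rfl | hy
          · refine ⟨by omega, by omega, Or.inl ⟨by omega, by omega, ?_⟩⟩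
            intro k hk1 hk2
            rw [hdp]
            have := hpos2 k (by omega) (by omega)
            omega
          · exact hTarc y hy
        · rw [Finset.card_insert_of_notMem, if_neg hpar, hcard]
          · omega
          · intro hmem
            rw [Finset.mem_image] at hmem
            obtain ⟨z, _, hz2⟩ := hmem
            omega

lemma good_base (b : ℕ) : Good (fun _ => 0) 1 0 0 b := by
  refine ⟨rfl, by omega, by norm_num, by norm_num, ?_⟩
  intro x hx
  have : x = 0 := by omega
  subst this
  exact ⟨∅, by simp, by simp⟩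

lemma exists_good (n : ℕ) : ∀ a b : ℕ, a + b ≤ n →
    ∃ (m : ℕ) (d : ℕ → ℕ), Good d m (m - 1) a b ∧ m + 1 ≤ 2 ^ (a + b + 1) ∧ a + 1 ≤ m := by
  induction n with
  | zero =>
    intro a b hab
    have ha : a = 0 := by omega
    have hb : b = 0 := by omega
    subst ha hb
    exact ⟨1, fun _ => 0, good_base 0, by norm_num, by norm_num⟩
  | succ n ih =>
    intro a b hab
    rcases a with _ | a
    · refine ⟨1, fun _ => 0, good_base b, ?_, by norm_num⟩
      have : 1 ≤ 2 ^ b := Nat.one_le_two_pow
      rw [pow_succ, zero_add]
      omega
    · obtain ⟨p, d1, g1, l1, k1⟩ := ih a b (by omega)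
      rcases b with _ | b
      · obtain ⟨r, d3, g3, l3, k3⟩ := ih a 0 (by omega)
        have hr := g3.odd
        have hg := good_comb g1 (good_base a) g3
        refine ⟨p + 1 + r, comb d1 p (fun _ => 0) 1 d3, ?_, ?_, by omega⟩
        · have : p + 1 + r - 1 = p + 1 + (r - 1) := by omega
          rw [this]
          exact hg
        · have e : 2 ^ (a + 1 + 0 + 1) = 2 ^ (a + 0 + 1) + 2 ^ (a + 0 + 1) := by ring
          rw [e]
          omega
      · obtain ⟨q, d2, g2, l2, k2⟩ := ih b a (by omega)
        obtain ⟨r, d3, g3, l3, k3⟩ := ih a b (by omega)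
        have hr := g3.odd
        have hg := good_comb (b := b + 1) g1 g2 g3
        refine ⟨p + q + r, comb d1 p d2 q d3, ?_, ?_, by omega⟩
        · have : p + q + r - 1 = p + q + (r - 1) := by omega
          rw [this]
          exact hg
        · have e : 2 ^ (a + 1 + (b + 1) + 1)
              = 2 ^ (a + (b + 1) + 1) + 2 ^ (a + b + 1) + 2 ^ (a + b + 1) := by ring
          have e2 : 2 ^ (b + a + 1) = 2 ^ (a + b + 1) := by
            congr 1
            omega
          rw [e]
          rw [e2] at l2
          omega

/-- The padded structures: the length is `s + 1 + q` with `q` any even number. -/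
lemma exists_pad (K : ℕ) : ∃ s : ℕ, s % 2 = 0 ∧ s + 2 ≤ 2 ^ (2 * K + 1) ∧ K ≤ s ∧
    ∀ q : ℕ, q % 2 = 0 → ∃ d : ℕ → ℕ, Good d (s + 1 + q) s K K := by
  induction K with
  | zero =>
    refine ⟨0, rfl, by norm_num, le_rfl, fun q hq => ⟨fun i => i, rfl, fun k hk _ => hk,
      by omega, by omega, ?_⟩⟩
    intro x _
    exact ⟨∅, by simp, by simp⟩
  | succ K ih =>
    obtain ⟨s, hs1, hs2, hs3, hs4⟩ := ih
    obtain ⟨p, d1, g1, l1, k1⟩ := exists_good (K + (K + 1)) K (K + 1) le_rfl
    obtain ⟨q', d2, g2, l2, k2⟩ := exists_good (K + K) K K le_rfl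
    have hp := g1.odd
    have hq := g2.odd
    refine ⟨p + q' + s, by omega, ?_, by omega, fun q hq => ?_⟩
    · have e : 2 ^ (2 * (K + 1) + 1) = 2 ^ (K + (K + 1) + 1) + 2 ^ (K + K + 1) + 2 ^ (2 * K + 1) := by
        have e1 : 2 * (K + 1) + 1 = 2 * K + 3 := by ring
        have e2 : K + (K + 1) + 1 = 2 * K + 2 := by ring
        have e3 : K + K + 1 = 2 * K + 1 := by ring
        rw [e1, e2, e3]
        ring
      rw [e]
      omega
    · obtain ⟨d3, g3⟩ := hs4 q hq
      refine ⟨comb d1 p d2 q' d3, ?_⟩
      have := good_comb (b := K + 1) g1 g2 g3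
      have e : p + q' + s + 1 + q = p + q' + (s + 1 + q) := by ring
      rw [e]
      exact this

end Pool.Agent.H241R2.TF
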