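import Mathlib
import Pool.Agent.H241R2.TFGood

set_option autoImplicit false

namespace Pool.Agent.H241R2.TF

/-- The allowed pairs (row, column): arcs into the columns `y ≤ s`, and only the pairs `(y, y)`
and `(y - 1, y)` for the columns `y > s`. -/
def B (d : ℕ → ℕ) (s x y : ℕ) : Prop := (y ≤ s ∧ Arc d x y) ∨ (s < y ∧ (y = x ∨ y = x + 1))

lemma arc_self (d : ℕ → ℕ) (x : ℕ) : Arc d x x :=
  Or.inl ⟨le_rfl, rfl, fun k h1 h2 => by omega⟩

lemma arc_succ (d : ℕ → ℕ) (x : ℕ) : Arc d x (x + 1) :=
  Or.inr ⟨by omega, by omega, fun k h1 h2 => by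
    have : k = x + 1 := by omega
    rw [this]⟩

lemma B_arc {d : ℕ → ℕ} {s x y : ℕ} (h : B d s x y) : Arc d x y := by
  rcases h with ⟨_, h⟩ | ⟨_, rfl | rfl⟩
  · exact h
  · exact arc_self d _
  · exact arc_succ d _

lemma B_self (d : ℕ → ℕ) (s x : ℕ) : B d s x x := by
  by_cases h : x ≤ s
  · exact Or.inl ⟨h, arc_self d x⟩
  · exact Or.inr ⟨by omega, Or.inl rfl⟩

lemma B_succ (d : ℕ → ℕ) (s x : ℕ) : B d s x (x + 1) := by
  by_cases h : x + 1 ≤ s
  · exact Or.inl ⟨h, arc_succ d x⟩
  · exact Or.inr ⟨by omega, Or.inr rfl⟩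

/-- The adjacency relation on rows (`inl`) and columns (`inr`). -/
def adjRel (d : ℕ → ℕ) (s N C : ℕ) : (Fin N ⊕ Fin C) → (Fin N ⊕ Fin C) → Prop
  | .inl x, .inl x' => ((x' : ℕ) = x + 1 ∧ C ≤ (x' : ℕ)) ∨ ((x : ℕ) = x' + 1 ∧ C ≤ (x : ℕ))
  | .inl x, .inr y => B d s x y
  | .inr y, .inl x => B d s x y
  | .inr y, .inr y' => y ≠ y'

/-- The graph: rows `0, ..., N - 1`, columns `0, ..., C - 1`; the columns form a clique, a row and
a column are adjacent when the pair is allowed, and the rows `y - 1` and `y` are adjacent when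
`y ≥ C` (the column `y` has been suppressed). -/
def gr (d : ℕ → ℕ) (s N C : ℕ) : SimpleGraph (Fin N ⊕ Fin C) where
  Adj := adjRel d s N C
  symm := ⟨by
    rintro (x | y) (x' | y') h
    · exact h.symm
    · exact h
    · exact h
    · exact Ne.symm h⟩
  loopless := ⟨by
    rintro (x | y) h
    · have h' : ((x : ℕ) = x + 1 ∧ C ≤ (x : ℕ)) ∨ ((x : ℕ) = x + 1 ∧ C ≤ (x : ℕ)) := h
      omega
    · exact h rfl⟩

/-- A 2-factor of `G`: a spanning subgraph in which every vertex has degree two. -/
def IsTwoFactor {V : Type*} (G F : SimpleGraph V) : Prop :=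
  F ≤ G ∧ ∀ v, (F.neighborSet v).ncard = 2

/-- The column (possibly suppressed) used by the edge from the row `x` to the vertex `v`. -/
def code {N C : ℕ} (hCN : C ≤ N) (x : Fin N) : Fin N ⊕ Fin C → Fin N
  | .inl x' => max x x'
  | .inr y => Fin.castLE hCN y

section

variable {d : ℕ → ℕ} {s N C : ℕ}

lemma code_inl_val (hCN : C ≤ N) (x x' : Fin N) :
    ((code hCN x (Sum.inl x' : Fin N ⊕ Fin C) : Fin N) : ℕ) = max (x : ℕ) x' := by
  simp only [code]
  rcases le_total x x' with h | h
  · rw [max_eq_right h, max_eq_right (Fin.le_def.mp h)]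
  · rw [max_eq_left h, max_eq_left (Fin.le_def.mp h)]

lemma code_inr_val (hCN : C ≤ N) (x : Fin N) (y : Fin C) :
    ((code hCN x (Sum.inr y : Fin N ⊕ Fin C) : Fin N) : ℕ) = y := rfl

lemma adj_inl {x x' : Fin N} (h : (gr d s N C).Adj (.inl x) (.inl x')) :
    ((x' : ℕ) = x + 1 ∧ C ≤ (x' : ℕ)) ∨ ((x : ℕ) = x' + 1 ∧ C ≤ (x : ℕ)) := h

lemma adj_code (hCN : C ≤ N) {x : Fin N} {v : Fin N ⊕ Fin C}
    (h : (gr d s N C).Adj (.inl x) v) : B d s x (code hCN x v) := by
  rcases v with x' | y
  · rw [code_inl_val]
    rcases adj_inl h with ⟨h1, h2⟩ | ⟨h1, h2⟩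
    · rw [max_eq_right (by omega), h1]
      exact B_succ d s x
    · rw [max_eq_left (by omega)]
      exact B_self d s x
  · exact h

lemma code_inj (hCN : C ≤ N) {x : Fin N} {v v' : Fin N ⊕ Fin C}
    (h : (gr d s N C).Adj (.inl x) v) (h' : (gr d s N C).Adj (.inl x) v')
    (he : code hCN x v = code hCN x v') : v = v' := by
  have he' : ((code hCN x v : Fin N) : ℕ) = (code hCN x v' : Fin N) := by rw [he]
  rcases v with x1 | y1 <;> rcases v' with x2 | y2
  · rw [code_inl_val, code_inl_val] at he'
    have h1 := adj_inl h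
    have h2 := adj_inl h'
    have : (x1 : ℕ) = x2 := by omega
    rw [Fin.ext this]
  · rw [code_inl_val, code_inr_val] at he'
    have h1 := adj_inl h
    have := y2.2
    omega
  · rw [code_inl_val, code_inr_val] at he'
    have h1 := adj_inl h'
    have := y1.2
    omega
  · rw [code_inr_val, code_inr_val] at he'
    rw [Fin.ext he']

end

open Classical in
/-- Every 2-factor of the graph has an odd number of components. -/
theorem odd_components {d : ℕ → ℕ} {s N C : ℕ} (hN : N % 2 = 1) (hCN : C ≤ N)
    (F : SimpleGraph (Fin N ⊕ Fin C)) (hF : IsTwoFactor (gr d s N C) F) :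
    Odd (Nat.card F.ConnectedComponent) := by
  obtain ⟨hle, hdeg⟩ := hF
  -- neighbour finsets
  have hnb : ∀ v, (Finset.univ.filter (fun w => F.Adj v w)).card = 2 := by
    intro v
    rw [← hdeg v, ← Set.ncard_coe_finset]
    congr 1
    ext w
    simp
  set t : Fin N → Finset (Fin N) := fun x =>
    (Finset.univ.filter (fun w => F.Adj (.inl x) w)).image (code hCN x) with ht
  have mem_t : ∀ x y, y ∈ t x ↔ ∃ v, F.Adj (.inl x) v ∧ code hCN x v = y := by
    intro x y
    simp [ht]
  have tcard : ∀ x, (t x).card = 2 := by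
    intro x
    rw [ht]
    simp only
    rw [Finset.card_image_of_injOn, hnb]
    intro v hv v' hv' he
    simp only [Finset.coe_filter, Finset.mem_univ, true_and, Set.mem_ofPred_eq] at hv hv'
    exact code_inj hCN (hle hv) (hle hv') he
  have tB : ∀ x y, y ∈ t x → B d s x y := by
    intro x y hy
    rw [mem_t] at hy
    obtain ⟨v, hv, rfl⟩ := hy
    exact adj_code hCN (hle hv)
  have tcol : ∀ (x : Fin N) (y : Fin C), Fin.castLE hCN y ∈ t x → F.Adj (.inl x) (.inr y) := by
    intro x y hy
    rw [mem_t] at hy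
    obtain ⟨v, hv, hc⟩ := hy
    have hc' : ((code hCN x v : Fin N) : ℕ) = y := by rw [hc]; rfl
    rcases v with x' | y'
    · rw [code_inl_val] at hc'
      have := adj_inl (hle hv)
      have := y.2
      omega
    · rw [code_inr_val] at hc'
      rw [Fin.ext hc'] at hv
      exact hv
  have trow : ∀ (x y : Fin N), C ≤ (y : ℕ) → y ∈ t x →
      ((x : ℕ) = y ∨ (x : ℕ) + 1 = y) ∧ ∀ x' : Fin N, ((x' : ℕ) = y ∨ (x' : ℕ) + 1 = y) →
        x' ≠ x → F.Adj (.inl x) (.inl x') := by
    intro x y hCy hy
    rw [mem_t] at hy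
    obtain ⟨v, hv, hc⟩ := hy
    have hc' : ((code hCN x v : Fin N) : ℕ) = y := by rw [hc]
    rcases v with x' | y'
    · rw [code_inl_val] at hc'
      have h1 := adj_inl (hle hv)
      refine ⟨by omega, fun x'' hx'' hne => ?_⟩
      have hne' : (x'' : ℕ) ≠ x := fun h => hne (Fin.ext h)
      have : (x'' : ℕ) = x' := by omega
      rw [Fin.ext this]
      exact hv
    · rw [code_inr_val] at hc'
      have := y'.2
      omega
  have indeg : ∀ y, (Finset.univ.filter (fun x => y ∈ t x)).card ≤ 2 := by
    intro y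
    by_cases hy : (y : ℕ) < C
    · rw [← hnb (.inr ⟨y, hy⟩)]
      apply Finset.card_le_card_of_injOn (fun x => Sum.inl x)
      · intro x hx
        simp only [Finset.coe_filter, Finset.mem_univ, true_and, Set.mem_ofPred_eq] at hx ⊢
        have : Fin.castLE hCN ⟨y, hy⟩ ∈ t x := hx
        exact (tcol x ⟨y, hy⟩ this).symm
      · intro a _ b _ hab
        exact Sum.inl_injective hab
    · have : (Finset.univ.filter (fun x => y ∈ t x)) ⊆
          {y, ⟨(y : ℕ) - 1, by have := y.2; omega⟩} := by
        intro x hx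
        simp only [Finset.mem_filter, Finset.mem_univ, true_and] at hx
        have h1 := (trow x y (by omega) hx).1
        simp only [Finset.mem_insert, Finset.mem_singleton]
        rcases h1 with h1 | h1
        · left; exact Fin.ext h1
        · right; apply Fin.ext; simp only; omega
      exact (Finset.card_le_card this).trans Finset.card_le_two
  -- double counting
  have dc : ∀ X : Finset (Fin N), 2 * X.card = ∑ y, (X.filter (fun x => y ∈ t x)).card := by
    intro X
    have h1 : ∑ x ∈ X, (t x).card = 2 * X.card := by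
      rw [Finset.sum_congr rfl (fun x _ => tcard x), Finset.sum_const, smul_eq_mul, mul_comm]
    rw [← h1]
    have h2 : ∀ x, (t x).card = ∑ y : Fin N, if y ∈ t x then 1 else 0 := by
      intro x
      rw [Finset.sum_boole]
      simp
    rw [Finset.sum_congr rfl (fun x _ => h2 x), Finset.sum_comm]
    refine Finset.sum_congr rfl (fun y _ => ?_)
    rw [Finset.sum_boole]
    simp
  have hall : ∀ X : Finset (Fin N), X.card ≤ (X.biUnion t).card := by
    intro X
    have h1 := dc X
    have h2 : ∑ y, (X.filter (fun x => y ∈ t x)).card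
        = ∑ y ∈ X.biUnion t, (X.filter (fun x => y ∈ t x)).card := by
      symm
      apply Finset.sum_subset (Finset.subset_univ _)
      intro y _ hy
      rw [Finset.card_eq_zero, Finset.filter_eq_empty_iff]
      intro x hx hyx
      exact hy (Finset.mem_biUnion.mpr ⟨x, hx, hyx⟩)
    have h3 : ∑ y ∈ X.biUnion t, (X.filter (fun x => y ∈ t x)).card ≤ (X.biUnion t).card * 2 := by
      apply Finset.sum_le_card_nsmul
      intro y _
      exact (Finset.card_le_card (Finset.filter_subset_filter _ (Finset.subset_univ X))).trans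
        (indeg y)
    omega
  obtain ⟨f, hfi, hft⟩ := (Finset.all_card_le_biUnion_card_iff_exists_injective t).mp hall
  have hother : ∀ x, ∃ y, y ∈ t x ∧ y ≠ f x ∧ ∀ z ∈ t x, z = f x ∨ z = y := by
    intro x
    have h1 : ((t x).erase (f x)).card = 1 := by
      rw [Finset.card_erase_of_mem (hft x), tcard]
    obtain ⟨y, hy⟩ := Finset.card_eq_one.mp h1
    have hy1 : y ∈ (t x).erase (f x) := by rw [hy]; simp
    rw [Finset.mem_erase] at hy1
    refine ⟨y, hy1.2, hy1.1, fun z hz => ?_⟩
    by_cases hzf : z = f x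
    · exact Or.inl hzf
    · right
      have : z ∈ (t x).erase (f x) := Finset.mem_erase.mpr ⟨hzf, hz⟩
      rw [hy, Finset.mem_singleton] at this
      exact this
  choose g hgt hgf hgz using hother
  have hfb : Function.Bijective f := Finite.injective_iff_bijective.mp hfi
  have hgi : Function.Injective g := by
    intro x x' hxx
    by_contra hne
    obtain ⟨x'', hx''⟩ := hfb.2 (g x)
    have h1 : x ≠ x'' := by
      rintro rfl
      exact hgf x hx''.symm
    have h2 : x' ≠ x'' := by
      rintro rfl
      exact hgf x' (by rw [← hxx]; exact hx''.symm)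
    have h3 : 2 < (Finset.univ.filter (fun z => g x ∈ t z)).card := by
      rw [Finset.two_lt_card]
      refine ⟨x, ?_, x', ?_, x'', ?_, hne, h1, h2⟩
      · simp [hgt x]
      · simp only [Finset.mem_filter, Finset.mem_univ, true_and]
        rw [hxx]; exact hgt x'
      · simp only [Finset.mem_filter, Finset.mem_univ, true_and]
        rw [← hx'']; exact hft x''
    have := indeg (g x)
    omega
  have hgb : Function.Bijective g := Finite.injective_iff_bijective.mp hgi
  set σ : Equiv.Perm (Fin N) := Equiv.ofBijective f hfb with hσ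
  set τ : Equiv.Perm (Fin N) := Equiv.ofBijective g hgb with hτ
  have hσf : ∀ x, σ x = f x := fun x => rfl
  have hτg : ∀ x, τ x = g x := fun x => rfl
  have sσ : Equiv.Perm.sign σ = 1 := sign_one d σ (fun x => B_arc (tB x _ (hft x)))
  have sτ : Equiv.Perm.sign τ = 1 := sign_one d τ (fun x => B_arc (tB x _ (hgt x)))
  set ρ : Equiv.Perm (Fin N) := σ⁻¹ * τ with hρ
  have sρ : Equiv.Perm.sign ρ = 1 := by
    rw [hρ, map_mul, map_inv, sσ, sτ]
    simp
  have hσρ : ∀ x, σ (ρ x) = τ x := by
    intro x
    rw [hρ, Equiv.Perm.mul_apply]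
    simp
  have hfix : ∀ x, ρ x ≠ x := by
    intro x hx
    have := hσρ x
    rw [hx, hσf, hτg] at this
    exact hgf x this.symm
  -- two rows sharing a column
  have share : ∀ x x' y, y ∈ t x → y ∈ t x' → ρ.SameCycle x x' ∧ F.Reachable (.inl x) (.inl x') := by
    intro x x' y hy hy'
    by_cases hxx : x = x'
    · subst hxx
      exact ⟨Equiv.Perm.SameCycle.refl _ _, SimpleGraph.Reachable.refl _⟩
    constructor
    · rcases hgz x y hy with h1 | h1 <;> rcases hgz x' y hy' with h2 | h2
      · exact absurd (hfi (h1.symm.trans h2)) hxx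
      · have : ρ x' = x := by
          apply σ.injective
          rw [hσρ, hτg, hσf, ← h2, ← h1]
        refine Equiv.Perm.SameCycle.symm ⟨1, ?_⟩
        simpa using this
      · have : ρ x = x' := by
          apply σ.injective
          rw [hσρ, hτg, hσf, ← h2, ← h1]
        refine ⟨1, ?_⟩
        simpa using this
      · exact absurd (hgi (h1.symm.trans h2)) hxx
    · by_cases hy2 : (y : ℕ) < C
      · have e1 : Fin.castLE hCN ⟨y, hy2⟩ ∈ t x := hy
        have e2 : Fin.castLE hCN ⟨y, hy2⟩ ∈ t x' := hy'
        exact (tcol x _ e1).reachable.trans (tcol x' _ e2).symm.reachable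
      · have e1 := trow x y (by omega) hy
        have e2 := trow x' y (by omega) hy'
        exact (e1.2 x' e2.1 (Ne.symm hxx)).reachable
  have reach_of_same : ∀ x x', ρ.SameCycle x x' → F.Reachable (.inl x) (.inl x') := by
    intro x x' h
    obtain ⟨n, hn⟩ := h.exists_nat_pow_eq
    rw [← hn]
    clear hn h
    induction n with
    | zero => exact SimpleGraph.Reachable.refl _
    | succ n ih =>
      refine ih.trans ?_
      rw [pow_succ', Equiv.Perm.mul_apply]
      refine (share _ _ (τ ((ρ ^ n) x)) (hgt _) ?_).2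
      rw [← hσρ]
      exact hft _
  -- the row attached to a vertex
  let row : Fin N ⊕ Fin C → Fin N := fun v => Sum.elim id (fun y => σ.symm (Fin.castLE hCN y)) v
  have hrow_inr : ∀ y : Fin C, Fin.castLE hCN y ∈ t (row (.inr y)) := by
    intro y
    have : σ (row (.inr y)) = Fin.castLE hCN y := by
      simp [row]
    rw [← this]
    exact hft _
  have reach_row : ∀ v, F.Reachable v (.inl (row v)) := by
    intro v
    rcases v with x | y
    · exact SimpleGraph.Reachable.refl _
    · exact (tcol _ y (hrow_inr y)).symm.reachable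
  have nocol : ∀ y y' : Fin C, ¬ F.Adj (.inr y) (.inr y') := by
    intro y y' h
    have h1 := tcol _ y (hrow_inr y)
    have hx2 : Fin.castLE hCN y ∈ t (τ.symm (Fin.castLE hCN y)) := by
      have : τ (τ.symm (Fin.castLE hCN y)) = Fin.castLE hCN y := by simp
      have h5 := hgt (τ.symm (Fin.castLE hCN y))
      rw [← hτg, this] at h5
      exact h5
    have h2 := tcol _ y hx2
    have h3 : 2 < (Finset.univ.filter (fun w => F.Adj (.inr y) w)).card := by
      rw [Finset.two_lt_card]
      refine ⟨.inl (row (.inr y)), by simpa using h1.symm, .inl (τ.symm (Fin.castLE hCN y)),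
        by simpa using h2.symm, .inr y', by simpa using h, ?_, by simp, by simp⟩
      intro heq
      have heq' : σ.symm (Fin.castLE hCN y) = τ.symm (Fin.castLE hCN y) := by
        have := Sum.inl_injective heq
        simpa [row] using this
      have h6 : σ (τ.symm (Fin.castLE hCN y)) = Fin.castLE hCN y := by
        rw [← heq']; simp
      have h7 : τ (τ.symm (Fin.castLE hCN y)) = Fin.castLE hCN y := by simp
      rw [hσf] at h6
      rw [hτg] at h7
      exact hgf _ (h7.trans h6.symm)
    rw [hnb] at h3
    omega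
  have adj_same : ∀ v w, F.Adj v w → ρ.SameCycle (row v) (row w) := by
    rintro (x | y) (x' | y') h
    · -- two rows
      have m1 : code hCN x (Sum.inl x' : Fin N ⊕ Fin C) ∈ t x := (mem_t _ _).mpr ⟨_, h, rfl⟩
      have m2 : code hCN x' (Sum.inl x : Fin N ⊕ Fin C) ∈ t x' := (mem_t _ _).mpr ⟨_, h.symm, rfl⟩
      have e : code hCN x (Sum.inl x' : Fin N ⊕ Fin C)
          = code hCN x' (Sum.inl x : Fin N ⊕ Fin C) := by
        simp only [code]
        exact max_comm _ _
      rw [← e] at m2
      exact (share x x' _ m1 m2).1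
    · have m1 : Fin.castLE hCN y' ∈ t x := (mem_t _ _).mpr ⟨_, h, rfl⟩
      exact (share x _ _ m1 (hrow_inr y')).1
    · have m1 : Fin.castLE hCN y ∈ t x' := (mem_t _ _).mpr ⟨_, h.symm, rfl⟩
      exact (share _ x' _ (hrow_inr y) m1).1
    · exact absurd h (nocol _ _)
  have reach_same : ∀ v w, F.Reachable v w → ρ.SameCycle (row v) (row w) := by
    rintro v w ⟨p⟩
    induction p with
    | nil => exact Equiv.Perm.SameCycle.refl _ _
    | cons hadj _ ih => exact (adj_same _ _ hadj).trans ih
  have same_iff : ∀ v w, F.Reachable v w ↔ ρ.cycleOf (row v) = ρ.cycleOf (row w) := by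
    intro v w
    rw [← Equiv.Perm.sameCycle_iff_cycleOf_eq_of_mem_support
      (Equiv.Perm.mem_support.mpr (hfix _)) (Equiv.Perm.mem_support.mpr (hfix _))]
    constructor
    · exact reach_same v w
    · intro h
      exact (reach_row v).trans ((reach_of_same _ _ h).trans (reach_row w).symm)
  -- count the components
  let L : F.ConnectedComponent → Equiv.Perm (Fin N) :=
    Quot.lift (fun v => ρ.cycleOf (row v)) (fun v w h => (same_iff v w).mp h)
  have hLinj : Function.Injective L := by
    intro c1 c2 h
    induction c1 using SimpleGraph.ConnectedComponent.ind with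
    | h v =>
      induction c2 using SimpleGraph.ConnectedComponent.ind with
      | h w =>
        rw [SimpleGraph.ConnectedComponent.eq]
        exact (same_iff v w).mpr h
  have hLrange : Set.range L = (ρ.cycleFactorsFinset : Set (Equiv.Perm (Fin N))) := by
    ext c
    constructor
    · rintro ⟨c1, rfl⟩
      induction c1 using SimpleGraph.ConnectedComponent.ind with
      | h v =>
        show ρ.cycleOf (row v) ∈ _
        rw [Finset.mem_coe, Equiv.Perm.cycleOf_mem_cycleFactorsFinset_iff]
        exact Equiv.Perm.mem_support.mpr (hfix _)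
    · intro hc
      rw [Finset.mem_coe] at hc
      have hc' := hc
      rw [Equiv.Perm.mem_cycleFactorsFinset_iff] at hc'
      obtain ⟨x, hx, _⟩ := hc'.1
      have hxs : x ∈ c.support := Equiv.Perm.mem_support.mpr hx
      refine ⟨F.connectedComponentMk (.inl x), ?_⟩
      show ρ.cycleOf x = c
      exact (Equiv.Perm.cycle_is_cycleOf hxs hc).symm
  have hcard : Nat.card F.ConnectedComponent = ρ.cycleFactorsFinset.card := by
    rw [← Nat.card_range_of_injective hLinj, hLrange]
    simp
  have hsupp : ρ.support = Finset.univ := by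
    ext x
    simp [hfix x]
  have hsign := Equiv.Perm.sign_of_cycleType ρ
  rw [sρ, Equiv.Perm.sum_cycleType, hsupp, Finset.card_univ, Fintype.card_fin,
    Equiv.Perm.cycleType_def, Multiset.card_map] at hsign
  have hc2 : Multiset.card ρ.cycleFactorsFinset.val = ρ.cycleFactorsFinset.card := rfl
  rw [hc2, ← hcard] at hsign
  by_contra hodd
  rw [Nat.not_odd_iff_even] at hodd
  have hNo : Odd N := Nat.odd_iff.mpr hN
  have := (hNo.add_even hodd).neg_one_pow (α := ℤˣ)
  rw [this] at hsign
  exact absurd hsign (by decide)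

end Pool.Agent.H241R2.TF
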