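import Mathlib
import Pool.Agent.H241R2.TFGraph

set_option autoImplicit false

namespace Pool.Agent.H241R2.TF

/-- The Hamiltonian cycle: row `x`, column `x + 1`, row `x + 1`, ..., back to column `0`,
suppressed columns being skipped. -/
def hamRel (N C : ℕ) : (Fin N ⊕ Fin C) → (Fin N ⊕ Fin C) → Prop
  | .inl x, .inl x' => ((x' : ℕ) = x + 1 ∧ C ≤ (x' : ℕ)) ∨ ((x : ℕ) = x' + 1 ∧ C ≤ (x : ℕ))
  | .inl x, .inr y => (y : ℕ) = x ∨ (y : ℕ) = x + 1 ∨ ((x : ℕ) + 1 = N ∧ (y : ℕ) = 0)
  | .inr y, .inl x => (y : ℕ) = x ∨ (y : ℕ) = x + 1 ∨ ((x : ℕ) + 1 = N ∧ (y : ℕ) = 0)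
  | .inr _, .inr _ => False

def ham (N C : ℕ) : SimpleGraph (Fin N ⊕ Fin C) where
  Adj := hamRel N C
  symm := ⟨by
    rintro (x | y) (x' | y') h
    · exact h.symm
    · exact h
    · exact h
    · exact h⟩
  loopless := ⟨by
    rintro (x | y) h
    · have h' : ((x : ℕ) = x + 1 ∧ C ≤ (x : ℕ)) ∨ ((x : ℕ) = x + 1 ∧ C ≤ (x : ℕ)) := h
      omega
    · exact h⟩

lemma ham_ll {N C : ℕ} (x x' : Fin N) : (ham N C).Adj (.inl x) (.inl x') ↔
    ((x' : ℕ) = x + 1 ∧ C ≤ (x' : ℕ)) ∨ ((x : ℕ) = x' + 1 ∧ C ≤ (x : ℕ)) := Iff.rfl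

lemma ham_lr {N C : ℕ} (x : Fin N) (y : Fin C) : (ham N C).Adj (.inl x) (.inr y) ↔
    ((y : ℕ) = x ∨ (y : ℕ) = x + 1 ∨ ((x : ℕ) + 1 = N ∧ (y : ℕ) = 0)) := Iff.rfl

lemma ham_rl {N C : ℕ} (x : Fin N) (y : Fin C) : (ham N C).Adj (.inr y) (.inl x) ↔
    ((y : ℕ) = x ∨ (y : ℕ) = x + 1 ∨ ((x : ℕ) + 1 = N ∧ (y : ℕ) = 0)) := Iff.rfl

lemma ham_rr {N C : ℕ} (y y' : Fin C) : (ham N C).Adj (.inr y) (.inr y') ↔ False := Iff.rfl

lemma ham_le {d : ℕ → ℕ} {s N C : ℕ} (hN : N % 2 = 1) (h0 : d 0 = 0)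
    (hpos : ∀ k, 0 < k → k < N → 1 ≤ d k) : ham N C ≤ gr d s N C := by
  have key : ∀ (x : Fin N) (y : Fin C),
      ((y : ℕ) = x ∨ (y : ℕ) = x + 1 ∨ ((x : ℕ) + 1 = N ∧ (y : ℕ) = 0)) → B d s x y := by
    intro x y h
    rcases h with h | h | ⟨h, h'⟩
    · rw [h]; exact B_self d s x
    · rw [h]; exact B_succ d s x
    · rw [h']
      refine Or.inl ⟨Nat.zero_le _, Or.inl ⟨Nat.zero_le _, by omega, fun k hk hkx => ?_⟩⟩
      rw [h0]
      exact hpos k hk (by have := x.2; omega)
  rintro (x | y) (x' | y') h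
  · exact h
  · exact key x y' h
  · exact key x' y h
  · exact absurd h (by rw [ham_rr]; exact not_false)

lemma ncard_two {V : Type*} (F : SimpleGraph V) (u a b : V) (hab : a ≠ b)
    (h : ∀ v, F.Adj u v ↔ v = a ∨ v = b) : (F.neighborSet u).ncard = 2 := by
  have : F.neighborSet u = {a, b} := by
    ext v
    simp [h v]
  rw [this, Set.ncard_pair hab]

lemma ham_two {N C : ℕ} (hN3 : 3 ≤ N) (hCN : C ≤ N) (hC : 1 ≤ C) (v : Fin N ⊕ Fin C) :
    ((ham N C).neighborSet v).ncard = 2 := by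
  rcases v with x | y
  · have hx := x.2
    by_cases h1 : (x : ℕ) < C
    · by_cases h2 : (x : ℕ) + 1 = N
      · apply ncard_two _ _ (.inr ⟨x, h1⟩) (.inr ⟨0, hC⟩)
        · simp only [ne_eq, Sum.inr.injEq, Fin.mk.injEq]; omega
        · rintro (x' | y')
          · have := x'.2
            rw [ham_ll]; simp only [reduceCtorEq, or_self, iff_false]; omega
          · have := y'.2
            rw [ham_lr]; simp only [Sum.inr.injEq, Fin.ext_iff]; omega
      · by_cases h3 : (x : ℕ) + 1 < C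
        · apply ncard_two _ _ (.inr ⟨x, h1⟩) (.inr ⟨x + 1, h3⟩)
          · simp only [ne_eq, Sum.inr.injEq, Fin.mk.injEq]; omega
          · rintro (x' | y')
            · rw [ham_ll]; simp only [reduceCtorEq, or_self, iff_false]; omega
            · rw [ham_lr]; simp only [Sum.inr.injEq, Fin.ext_iff]; omega
        · apply ncard_two _ _ (.inr ⟨x, h1⟩) (.inl ⟨x + 1, by omega⟩)
          · simp
          · rintro (x' | y')
            · rw [ham_ll]; simp only [reduceCtorEq, false_or, Sum.inl.injEq, Fin.ext_iff]; omega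
            · have := y'.2
              rw [ham_lr]; simp only [Sum.inr.injEq, Fin.ext_iff, reduceCtorEq, or_false]; omega
    · by_cases h2 : (x : ℕ) + 1 = N
      · apply ncard_two _ _ (.inl ⟨x - 1, by omega⟩) (.inr ⟨0, hC⟩)
        · simp
        · rintro (x' | y')
          · have := x'.2
            rw [ham_ll]; simp only [reduceCtorEq, or_false, Sum.inl.injEq, Fin.ext_iff]; omega
          · have := y'.2
            rw [ham_lr]; simp only [Sum.inr.injEq, Fin.ext_iff, reduceCtorEq, false_or]; omega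
      · apply ncard_two _ _ (.inl ⟨x - 1, by omega⟩) (.inl ⟨x + 1, by omega⟩)
        · simp only [ne_eq, Sum.inl.injEq, Fin.mk.injEq]; omega
        · rintro (x' | y')
          · rw [ham_ll]; simp only [Sum.inl.injEq, Fin.ext_iff]; omega
          · have := y'.2
            rw [ham_lr]; simp only [reduceCtorEq, or_self, iff_false]; omega
  · have hy := y.2
    by_cases h0 : (y : ℕ) = 0
    · apply ncard_two _ _ (.inl ⟨0, by omega⟩) (.inl ⟨N - 1, by omega⟩)
      · simp only [ne_eq, Sum.inl.injEq, Fin.mk.injEq]; omega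
      · rintro (x' | y')
        · rw [ham_rl]; simp only [Sum.inl.injEq, Fin.ext_iff]; omega
        · rw [ham_rr]; simp
    · apply ncard_two _ _ (.inl ⟨y, by omega⟩) (.inl ⟨y - 1, by omega⟩)
      · simp only [ne_eq, Sum.inl.injEq, Fin.mk.injEq]; omega
      · rintro (x' | y')
        · rw [ham_rl]; simp only [Sum.inl.injEq, Fin.ext_iff]; omega
        · rw [ham_rr]; simp

lemma ham_conn {N C : ℕ} (hN3 : 3 ≤ N) (hCN : C ≤ N) :
    Nat.card (ham N C).ConnectedComponent = 1 := by
  have hrow : ∀ (k : ℕ) (hk : k < N),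
      (ham N C).Reachable (.inl ⟨k, hk⟩) (.inl ⟨0, by omega⟩) := by
    intro k
    induction k with
    | zero => intro _; exact SimpleGraph.Reachable.refl _
    | succ k ih =>
      intro hk
      refine SimpleGraph.Reachable.trans ?_ (ih (by omega))
      by_cases h : k + 1 < C
      · have e1 : (ham N C).Adj (.inl ⟨k + 1, hk⟩) (.inr ⟨k + 1, h⟩) := by
          rw [ham_lr]; simp
        have e2 : (ham N C).Adj (.inr ⟨k + 1, h⟩) (.inl ⟨k, by omega⟩) := by
          rw [ham_rl]; simp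
        exact e1.reachable.trans e2.reachable
      · have e1 : (ham N C).Adj (.inl ⟨k + 1, hk⟩) (.inl ⟨k, by omega⟩) := by
          rw [ham_ll]; simp; omega
        exact e1.reachable
  have hall : ∀ v : Fin N ⊕ Fin C, (ham N C).Reachable v (.inl ⟨0, by omega⟩) := by
    rintro (x | y)
    · exact hrow x x.2
    · have e1 : (ham N C).Adj (.inr y) (.inl ⟨y, by have := y.2; omega⟩) := by
        rw [ham_rl]; simp
      exact e1.reachable.trans (hrow y _)
  have hpre : (ham N C).Preconnected := fun v w => (hall v).trans (hall w).symm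
  rw [Nat.card_eq_one_iff_unique]
  exact ⟨hpre.subsingleton_connectedComponent,
    ⟨(ham N C).connectedComponentMk (.inl ⟨0, by omega⟩)⟩⟩

lemma deg_row {d : ℕ → ℕ} {s N C K : ℕ} (hg : Good d N s K K) (hs : s < C)
    (x : Fin N) : K + 1 ≤ ((gr d s N C).neighborSet (.inl x)).ncard := by
  classical
  obtain ⟨T, hT1, hT2⟩ := hg.needs x x.2
  have hT2' : K ≤ T.card := by
    by_cases h : (x : ℕ) % 2 = 0
    · rwa [if_pos h] at hT2
    · rwa [if_neg h] at hT2
  let φ : ℕ → Fin N ⊕ Fin C := fun y => if h : y < C then .inr ⟨y, h⟩ else .inl x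
  have hφ : ∀ y ∈ T, ∃ h : y < C, φ y = .inr ⟨y, h⟩ := by
    intro y hy
    have h1 := (hT1 y hy).1
    have h2 : y < C := by omega
    exact ⟨h2, by simp only [φ]; rw [dif_pos h2]⟩
  have hinj : Set.InjOn φ (T : Set ℕ) := by
    intro y hy z hz hyz
    obtain ⟨h1, e1⟩ := hφ y hy
    obtain ⟨h2, e2⟩ := hφ z hz
    rw [e1, e2] at hyz
    simpa using hyz
  -- the vertex for the pair (x, x)
  obtain ⟨v, hv1, hv2⟩ : ∃ v, (gr d s N C).Adj (.inl x) v ∧ v ∉ T.image φ := by
    by_cases h : (x : ℕ) < C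
    · refine ⟨.inr ⟨x, h⟩, B_self d s x, ?_⟩
      intro hm
      rw [Finset.mem_image] at hm
      obtain ⟨y, hy, hy2⟩ := hm
      obtain ⟨h1, e1⟩ := hφ y hy
      rw [e1] at hy2
      have : y = x := by simpa using hy2
      exact (hT1 y hy).2.1 this
    · refine ⟨.inl ⟨x - 1, by omega⟩, ?_, ?_⟩
      · right
        simp only
        omega
      · intro hm
        rw [Finset.mem_image] at hm
        obtain ⟨y, hy, hy2⟩ := hm
        obtain ⟨h1, e1⟩ := hφ y hy
        rw [e1] at hy2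
        simp at hy2
  have hsub : ((insert v (T.image φ) : Finset (Fin N ⊕ Fin C)) : Set (Fin N ⊕ Fin C))
      ⊆ (gr d s N C).neighborSet (.inl x) := by
    intro w hw
    rw [Finset.mem_coe, Finset.mem_insert, Finset.mem_image] at hw
    rcases hw with rfl | ⟨y, hy, rfl⟩
    · exact hv1
    · obtain ⟨h1, e1⟩ := hφ y hy
      rw [e1]
      exact Or.inl ⟨(hT1 y hy).1, (hT1 y hy).2.2⟩
  have := Set.ncard_le_ncard hsub (Set.toFinite _)
  rw [Set.ncard_coe_finset, Finset.card_insert_of_notMem hv2,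
    Finset.card_image_of_injOn hinj] at this
  omega

lemma deg_col {d : ℕ → ℕ} {s N C K : ℕ} (hCN : C ≤ N) (hK : K + 1 ≤ C)
    (y : Fin C) : K + 1 ≤ ((gr d s N C).neighborSet (.inr y)).ncard := by
  classical
  have hsub : ((insert (.inl (Fin.castLE hCN y))
      ((Finset.univ.erase y).image (fun z => (.inr z : Fin N ⊕ Fin C))) :
        Finset (Fin N ⊕ Fin C)) : Set (Fin N ⊕ Fin C))
      ⊆ (gr d s N C).neighborSet (.inr y) := by
    intro w hw
    rw [Finset.mem_coe, Finset.mem_insert, Finset.mem_image] at hw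
    rcases hw with rfl | ⟨z, hz, rfl⟩
    · exact B_self d s y
    · exact (Finset.ne_of_mem_erase hz).symm
  have := Set.ncard_le_ncard hsub (Set.toFinite _)
  rw [Set.ncard_coe_finset, Finset.card_insert_of_notMem,
    Finset.card_image_of_injective _ Sum.inr_injective, Finset.card_erase_of_mem
      (Finset.mem_univ _), Finset.card_univ, Fintype.card_fin] at this
  · omega
  · intro hm
    rw [Finset.mem_image] at hm
    obtain ⟨z, _, hz⟩ := hm
    simp at hz

/-! ### Transport along a bijection -/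

lemma comap_ncard {V W : Type*} (f : V ≃ W) (A : SimpleGraph W) (v : V) :
    ((A.comap f).neighborSet v).ncard = (A.neighborSet (f v)).ncard := by
  have : A.neighborSet (f v) = f '' ((A.comap f).neighborSet v) := by
    ext w
    constructor
    · intro hw
      refine ⟨f.symm w, ?_, by simp⟩
      simpa using hw
    · rintro ⟨u, hu, rfl⟩
      exact hu
  rw [this, Set.ncard_image_of_injective _ f.injective]

lemma comap_card {V W : Type*} (f : V ≃ W) (A : SimpleGraph W) :
    Nat.card (A.comap f).ConnectedComponent = Nat.card A.ConnectedComponent :=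
  Nat.card_congr (SimpleGraph.Iso.comap f A).connectedComponentEquiv

lemma comap_two {V W : Type*} (f : V ≃ W) {G F : SimpleGraph W} (h : IsTwoFactor G F) :
    IsTwoFactor (G.comap f) (F.comap f) := by
  refine ⟨fun a b hab => h.1 hab, fun v => ?_⟩
  rw [comap_ncard]
  exact h.2 _

/-- For every `n ≥ 4 ^ (K + 1)` there is a Hamiltonian graph on `n` vertices with minimum degree
at least `K + 1` all of whose 2-factors have an odd number of cycles. -/
theorem exists_graph (K n : ℕ) (hn : 4 ^ (K + 1) ≤ n) : ∃ G : SimpleGraph (Fin n),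
    (∀ v, K + 1 ≤ (G.neighborSet v).ncard) ∧
    (∃ F, IsTwoFactor G F ∧ Nat.card F.ConnectedComponent = 1) ∧
    (∀ F, IsTwoFactor G F → Odd (Nat.card F.ConnectedComponent)) := by
  obtain ⟨s, hs1, hs2, hs3, hs4⟩ := exists_pad K
  have e4 : 4 ^ (K + 1) = 2 * 2 ^ (2 * K + 1) := by
    rw [show (4 : ℕ) = 2 ^ 2 by norm_num, ← pow_mul]
    ring
  rw [e4] at hn
  -- the parameters
  obtain ⟨q, C, hq, hq2, hC1, hC2, hnC⟩ : ∃ q C : ℕ, q % 2 = 0 ∧ 2 ≤ q ∧ s < C ∧ C ≤ s + 2 ∧
      (s + 1 + q) + C = n := by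
    by_cases hpar : n % 2 = 0
    · exact ⟨n - 2 * (s + 1), s + 1, by omega, by omega, by omega, by omega, by omega⟩
    · exact ⟨n - 1 - 2 * (s + 1), s + 2, by omega, by omega, by omega, by omega, by omega⟩
  obtain ⟨d, hg⟩ := hs4 q hq
  set N := s + 1 + q with hN
  have hNodd : N % 2 = 1 := by omega
  have hCN : C ≤ N := by omega
  let e : Fin N ⊕ Fin C ≃ Fin n := finSumFinEquiv.trans (finCongr hnC)
  refine ⟨(gr d s N C).comap e.symm, ?_, ?_, ?_⟩
  · intro v
    rw [comap_ncard]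
    rcases e.symm v with x | y
    · exact deg_row hg hC1 x
    · exact deg_col hCN (by omega) y
  · refine ⟨(ham N C).comap e.symm, comap_two e.symm ⟨ham_le hNodd hg.zero hg.pos,
      ham_two (by omega) hCN (by omega)⟩, ?_⟩
    rw [comap_card]
    exact ham_conn (by omega) hCN
  · intro F hF
    have h1 := comap_two e hF
    have h2 : ((gr d s N C).comap e.symm).comap e = gr d s N C := by
      ext a b
      simp
    rw [h2] at h1
    have h3 := odd_components hNodd hCN _ h1
    rw [comap_card] at h3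
    exact h3

/-- `delta0 n` is the least `d` such that every Hamiltonian graph on `n` vertices with minimum
degree at least `d` has a 2-factor with exactly two cycles (components). -/
noncomputable def delta0 (n : ℕ) : ℕ :=
  sInf {d : ℕ | ∀ G : SimpleGraph (Fin n),
    (∃ F, IsTwoFactor G F ∧ Nat.card F.ConnectedComponent = 1) →
    (∀ v, d ≤ (G.neighborSet v).ncard) →
    ∃ F, IsTwoFactor G F ∧ Nat.card F.ConnectedComponent = 2}

lemma delta0_ge (K n : ℕ) (hn : 4 ^ (K + 1) ≤ n) : K + 2 ≤ delta0 n := by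
  have hn1 : 1 ≤ n := le_trans (Nat.one_le_pow _ _ (by norm_num)) hn
  apply le_csInf
  · refine ⟨n, fun G _ hdeg => ?_⟩
    exfalso
    have h1 := hdeg ⟨0, hn1⟩
    have h2 : G.neighborSet ⟨0, hn1⟩ ⊂ Set.univ := by
      rw [Set.ssubset_univ_iff]
      intro h
      have : (⟨0, hn1⟩ : Fin n) ∈ G.neighborSet ⟨0, hn1⟩ := by rw [h]; trivial
      exact G.loopless.irrefl _ this
    have h3 := Set.ncard_lt_ncard h2 (Set.toFinite _)
    rw [Set.ncard_univ, Nat.card_fin] at h3
    omega
  · intro d hd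
    by_contra hlt
    obtain ⟨G, hG1, hG2, hG3⟩ := exists_graph K n hn
    obtain ⟨F, hF1, hF2⟩ := hd G hG2 (fun v => le_trans (by omega) (hG1 v))
    have := hG3 F hF1
    rw [hF2] at this
    exact absurd this (by decide)

end Pool.Agent.H241R2.TF
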